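import Mathlib

/-!
# Spread representations
-/

set_option autoImplicit false
set_option linter.all false

namespace Pool.Agent.X317.SR

open CategoryTheory CategoryTheory.Limits
open Classical

universe u

/-- representations of a poset over a field -/
abbrev Rep (k : Type u) [Field k] (P : Type u) [PartialOrder P] : Type (u + 1) :=
  P ⥤ ModuleCat.{u} k

variable (k : Type u) [Field k] {P : Type u} [PartialOrder P]

/-- the value of the representation of `S` at `p`: all of `k` if `p ∈ S`, zero otherwise -/
def cell (S : Set P) (p : P) : Submodule k k where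
  carrier := {x | p ∉ S → x = 0}
  zero_mem' := fun _ => rfl
  add_mem' := by
    intro a b ha hb hp
    show a + b = 0
    rw [ha hp, hb hp, add_zero]
  smul_mem' := by
    intro c a ha hp
    show c * a = 0
    rw [ha hp, mul_zero]

/-- the transition map: the identity of `k` whenever both ends lie in `S` -/
noncomputable def cellMap (S : Set P) (p q : P) : cell k S p →ₗ[k] cell k S q where
  toFun x := ⟨if q ∈ S then x.1 else 0, fun h => if_neg h⟩
  map_add' := by
    intro x y
    apply Subtype.ext
    show (if q ∈ S then x.1 + y.1 else 0) = (if q ∈ S then x.1 else 0) + (if q ∈ S then y.1 else 0)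
    split_ifs <;> simp
  map_smul' := by
    intro c x
    apply Subtype.ext
    show (if q ∈ S then c * x.1 else 0) = c * (if q ∈ S then x.1 else 0)
    split_ifs <;> simp

theorem cell_mem {S : Set P} {p : P} (x : cell k S p) (hx : x.1 ≠ 0) : p ∈ S := by
  by_contra h
  exact hx (x.2 h)

/-- the representation `k_S` of a convex subset `S` -/
noncomputable def kS (S : Set P) (hS : S.OrdConnected) : Rep k P where
  obj p := ModuleCat.of k (cell k S p)
  map {p q} _ := ModuleCat.ofHom (cellMap k S p q)
  map_id p := by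
    apply ModuleCat.hom_ext
    apply LinearMap.ext
    intro x
    apply Subtype.ext
    show (if p ∈ S then (x : cell k S p).1 else 0) = (x : cell k S p).1
    split_ifs with h
    · rfl
    · exact ((x : cell k S p).2 h).symm
  map_comp {p q r} f g := by
    apply ModuleCat.hom_ext
    apply LinearMap.ext
    intro x
    apply Subtype.ext
    show (if r ∈ S then (x : cell k S p).1 else 0) =
      (if r ∈ S then (if q ∈ S then (x : cell k S p).1 else 0) else 0)
    by_cases hr : r ∈ S
    · rw [if_pos hr, if_pos hr]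
      by_cases hx : (x : cell k S p).1 = 0
      · rw [hx]
        simp
      · have hp := cell_mem k (x : cell k S p) hx
        rw [if_pos (hS.out hp hr ⟨leOfHom f, leOfHom g⟩)]
    · rw [if_neg hr, if_neg hr]

theorem kS_map {S : Set P} (hS : S.OrdConnected) {p q : P} (h : p ⟶ q) (x : cell k S p) :
    (((kS k S hS).map h).hom x : cell k S q).1 = (if q ∈ S then x.1 else 0) := by
  show (cellMap k S p q x).1 = _
  show (if q ∈ S then x.1 else 0) = _
  rfl

theorem kS_map_mem {S : Set P} (hS : S.OrdConnected) {p q : P} (h : p ⟶ q) (hq : q ∈ S)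
    (x : cell k S p) : (((kS k S hS).map h).hom x : cell k S q).1 = x.1 := by
  rw [kS_map, if_pos hq]

/-- the canonical element -/
noncomputable def oneS (S : Set P) (p : P) : cell k S p := ⟨if p ∈ S then 1 else 0, fun h => if_neg h⟩

theorem oneS_smul {S : Set P} {p : P} (x : cell k S p) : x = x.1 • oneS k S p := by
  apply Subtype.ext
  show x.1 = x.1 * (if p ∈ S then 1 else 0)
  by_cases hx : x.1 = 0
  · rw [hx, zero_mul]
  · rw [if_pos (cell_mem k x hx), mul_one]

variable {k}

theorem nat_ap {M N : Rep k P} (e : M ⟶ N) {p q : P} (f : p ⟶ q) (z : M.obj p) :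
    (e.app q).hom ((M.map f).hom z) = (N.map f).hom ((e.app p).hom z) :=
  congrArg (fun g => g.hom z) (e.naturality f)

theorem map_map' (M : Rep k P) {p q r : P} (f : p ⟶ q) (g : q ⟶ r) (h : p ⟶ r) (z : M.obj p) :
    (M.map g).hom ((M.map f).hom z) = (M.map h).hom z := by
  have h1 : h = f ≫ g := Subsingleton.elim _ _
  subst h1
  rw [M.map_comp]
  rfl

theorem map_id' (M : Rep k P) {p : P} (f : p ⟶ p) (z : M.obj p) : (M.map f).hom z = z := by
  have h1 : f = 𝟙 p := Subsingleton.elim _ _
  subst h1
  rw [M.map_id]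
  rfl

theorem rep_ext {M N : Rep k P} {f g : M ⟶ N} (h : ∀ p (x : M.obj p), (f.app p).hom x = (g.app p).hom x) :
    f = g := by
  apply NatTrans.ext
  funext p
  apply ModuleCat.hom_ext
  apply LinearMap.ext
  exact h p

/-- the elements of a morphism out of `k_S` -/
noncomputable def el {S : Set P} {hS : S.OrdConnected} {N : Rep k P} (f : kS k S hS ⟶ N) (p : P) :
    N.obj p := (f.app p).hom (oneS k S p)

theorem el_apply {S : Set P} {hS : S.OrdConnected} {N : Rep k P} (f : kS k S hS ⟶ N) (p : P)
    (x : cell k S p) : (f.app p).hom x = x.1 • el f p := by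
  conv_lhs => rw [oneS_smul k x]
  exact (f.app p).hom.map_smul x.1 (oneS k S p)

theorem el_zero {S : Set P} {hS : S.OrdConnected} {N : Rep k P} (f : kS k S hS ⟶ N) {p : P}
    (hp : p ∉ S) : el f p = 0 := by
  have h : oneS k S p = 0 := by
    apply Subtype.ext
    exact if_neg hp
  unfold el
  rw [h]
  exact map_zero _

theorem el_map {S : Set P} {hS : S.OrdConnected} {N : Rep k P} (f : kS k S hS ⟶ N) {p q : P}
    (h : p ⟶ q) (hp : p ∈ S) : (N.map h).hom (el f p) = el f q := by
  have h1 := nat_ap f h (oneS k S p)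
  have h2 : ((kS k S hS).map h).hom (oneS k S p) = oneS k S q := by
    apply Subtype.ext
    refine (kS_map k hS h (oneS k S p)).trans ?_
    show (if q ∈ S then (if p ∈ S then (1 : k) else 0) else 0) = (if q ∈ S then 1 else 0)
    rw [if_pos hp]
  exact h1.symm.trans (congrArg (fun y => (f.app q).hom y) h2)

theorem el_ext {S : Set P} {hS : S.OrdConnected} {N : Rep k P} {f g : kS k S hS ⟶ N}
    (h : ∀ p ∈ S, el f p = el g p) : f = g := by
  apply rep_ext
  intro p x
  have h1 := el_apply f p x
  have h2 := el_apply g p x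
  by_cases hp : p ∈ S
  · exact h1.trans ((congrArg (fun y => (x : cell k S p).1 • y) (h p hp)).trans h2.symm)
  · have h3 : (x : cell k S p).1 = 0 := (x : cell k S p).2 hp
    rw [h3, zero_smul] at h1 h2
    exact h1.trans h2.symm

/-- build a morphism out of `k_S` -/
noncomputable def mkH (S : Set P) (hS : S.OrdConnected) (N : Rep k P) (n : ∀ p, N.obj p)
    (h0 : ∀ p, p ∉ S → n p = 0)
    (h : ∀ (p q : P) (f : p ⟶ q), p ∈ S → (N.map f).hom (n p) = n q) : kS k S hS ⟶ N where
  app p := ModuleCat.ofHom
    { toFun := fun x : cell k S p => x.1 • n p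
      map_add' := by
        intro x y
        show (x.1 + y.1) • n p = x.1 • n p + y.1 • n p
        rw [add_smul]
      map_smul' := by
        intro c x
        show (c * x.1) • n p = c • x.1 • n p
        rw [mul_smul] }
  naturality p q f := by
    apply ModuleCat.hom_ext
    apply LinearMap.ext
    intro x
    have e1 := kS_map k hS f (x : cell k S p)
    refine (congrArg (fun c : k => c • n q) e1).trans ?_
    show (if q ∈ S then (x : cell k S p).1 else 0) • n q = (N.map f).hom ((x : cell k S p).1 • n p)
    rw [map_smul]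
    by_cases hx : (x : cell k S p).1 = 0
    · rw [hx]
      simp
    · have hp := cell_mem k (x : cell k S p) hx
      rw [h p q f hp]
      by_cases hq : q ∈ S
      · rw [if_pos hq]
      · rw [if_neg hq, h0 q hq, zero_smul, smul_zero]

theorem mkH_el {S : Set P} {hS : S.OrdConnected} {N : Rep k P} (n : ∀ p, N.obj p)
    (h0 : ∀ p, p ∉ S → n p = 0)
    (h : ∀ (p q : P) (f : p ⟶ q), p ∈ S → (N.map f).hom (n p) = n q) (p : P) :
    el (mkH S hS N n h0 h) p = n p := by
  show (oneS k S p).1 • n p = n p
  by_cases hp : p ∈ S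
  · have : (oneS k S p).1 = 1 := if_pos hp
    rw [this, one_smul]
  · rw [h0 p hp, smul_zero]

theorem el_comp {S : Set P} {hS : S.OrdConnected} {M N : Rep k P} (f : kS k S hS ⟶ M) (g : M ⟶ N)
    (p : P) : el (f ≫ g) p = (g.app p).hom (el f p) := rfl

theorem el_add {S : Set P} {hS : S.OrdConnected} {M : Rep k P} (f g : kS k S hS ⟶ M)
    (p : P) : el (f + g) p = el f p + el g p := rfl

/-- the coordinate of a map between spread representations -/
noncomputable def co {S U : Set P} {hS : S.OrdConnected} {hU : U.OrdConnected}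
    (f : kS k S hS ⟶ kS k U hU) (p : P) : k := (el f p : cell k U p).1

theorem co_zero_left {S U : Set P} {hS : S.OrdConnected} {hU : U.OrdConnected}
    (f : kS k S hS ⟶ kS k U hU) {p : P} (hp : p ∉ S) : co f p = 0 := by
  unfold co
  rw [el_zero f hp]
  rfl

theorem co_zero_right {S U : Set P} {hS : S.OrdConnected} {hU : U.OrdConnected}
    (f : kS k S hS ⟶ kS k U hU) {p : P} (hp : p ∉ U) : co f p = 0 :=
  (el f p : cell k U p).2 hp

theorem co_map {S U : Set P} {hS : S.OrdConnected} {hU : U.OrdConnected}
    (f : kS k S hS ⟶ kS k U hU) {p q : P} (h : p ≤ q) (hp : p ∈ S) (hq : q ∈ U) :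
    co f q = co f p := by
  have h1 := el_map f (homOfLE h) hp
  have h2 := congrArg (fun x : cell k U q => x.1) h1
  have h3 := kS_map_mem k hU (homOfLE h) hq (el f p)
  exact h2.symm.trans h3

theorem co_ext {S U : Set P} {hS : S.OrdConnected} {hU : U.OrdConnected}
    {f g : kS k S hS ⟶ kS k U hU} (h : ∀ p, co f p = co g p) : f = g := by
  apply el_ext
  intro p _
  exact Subtype.ext (h p)

theorem co_comp {S U V : Set P} {hS : S.OrdConnected} {hU : U.OrdConnected} {hV : V.OrdConnected}
    (f : kS k S hS ⟶ kS k U hU) (g : kS k U hU ⟶ kS k V hV) (p : P) :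
    co (f ≫ g) p = co f p * co g p := by
  show ((g.app p).hom (el f p) : cell k V p).1 = co f p * co g p
  have h := el_apply g p (el f p)
  exact congrArg (fun x : cell k V p => x.1) h

/-- build a map between spread representations from coordinates -/
noncomputable def mkC (S : Set P) (hS : S.OrdConnected) (U : Set P) (hU : U.OrdConnected)
    (n : P → k) (h0 : ∀ p, ¬ (p ∈ S ∧ p ∈ U) → n p = 0)
    (h : ∀ p q, p ≤ q → p ∈ S → q ∈ U → n p = n q) : kS k S hS ⟶ kS k U hU :=
  mkH S hS (kS k U hU) (fun p => (⟨n p, fun hp => h0 p (fun h' => hp h'.2)⟩ : cell k U p))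
    (fun p hp => Subtype.ext (h0 p (fun h' => hp h'.1)))
    (fun p q f hp => by
      apply Subtype.ext
      refine (kS_map k hU f _).trans ?_
      show (if q ∈ U then n p else 0) = n q
      by_cases hq : q ∈ U
      · rw [if_pos hq, h p q (leOfHom f) hp hq]
      · rw [if_neg hq, h0 q (fun h' => hq h'.2)])

theorem mkC_co {S : Set P} {hS : S.OrdConnected} {U : Set P} {hU : U.OrdConnected}
    (n : P → k) (h0 : ∀ p, ¬ (p ∈ S ∧ p ∈ U) → n p = 0)
    (h : ∀ p q, p ≤ q → p ∈ S → q ∈ U → n p = n q) (p : P) :
    co (mkC S hS U hU n h0 h) p = n p := by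
  exact congrArg (fun x : cell k U p => x.1) (mkH_el (hS := hS) (N := kS k U hU)
    (fun p => (⟨n p, fun hp => h0 p (fun h' => hp h'.2)⟩ : cell k U p)) _ _ p)

theorem co_id {S : Set P} {hS : S.OrdConnected} {p : P} (hp : p ∈ S) : co (𝟙 (kS k S hS)) p = 1 := by
  show (oneS k S p).1 = 1
  exact if_pos hp

end Pool.Agent.X317.SR
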