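import Mathlib
import Pool.Agent.X317.SR.KS

/-!
# Spreads, finitely presented representations, spread resolutions
-/

set_option autoImplicit false
set_option linter.all false

namespace Pool.Agent.X317.SR

open CategoryTheory CategoryTheory.Limits

universe u

/-- a spread: a non-empty, convex, connected subset -/
structure IsSpread {P : Type u} [PartialOrder P] (S : Set P) : Prop where
  nonempty : S.Nonempty
  convex : S.OrdConnected
  connected : ∀ x ∈ S, ∀ y ∈ S, Relation.EqvGen (fun a b => a ∈ S ∧ b ∈ S ∧ a ≤ b) x y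

instance hasFB (k : Type u) [Field k] (P : Type u) [PartialOrder P] : HasFiniteBiproducts (Rep k P) :=
  HasFiniteBiproducts.of_hasFiniteProducts

variable {k : Type u} [Field k] {P : Type u} [PartialOrder P]

/-- a finite direct sum of spread representations -/
def IsSpreadSum (X : Rep k P) : Prop :=
  ∃ (n : ℕ) (S : Fin n → Set P) (h : ∀ i, IsSpread (S i)),
    Nonempty (X ≅ ⨁ fun i => kS k (S i) (h i).convex)

/-- finitely presented: the cokernel of a morphism between finite direct sums of the
representables `k_{↑p}` -/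
def IsFP (M : Rep k P) : Prop :=
  ∃ (m n : ℕ) (a : Fin m → P) (b : Fin n → P)
    (α : (⨁ fun i => kS k (Set.Ici (a i)) Set.ordConnected_Ici) ⟶
      (⨁ fun j => kS k (Set.Ici (b j)) Set.ordConnected_Ici)),
    Nonempty (M ≅ cokernel α)

/-- `M` has a spread-resolution `0 → X_n → ⋯ → X_0 → M → 0`: it is spliced from short exact
sequences in `rep(P)` that stay exact under every `Hom(k_S, -)`, `S` a spread -/
def HasSpreadRes : ℕ → Rep k P → Prop
  | 0, M => IsFP M ∧ IsSpreadSum M
  | n + 1, M => ∃ (K X : Rep k P) (i : K ⟶ X) (p : X ⟶ M) (w : i ≫ p = 0),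
      (ShortComplex.mk i p w).ShortExact ∧ IsFP K ∧ IsFP X ∧ IsFP M ∧ IsSpreadSum X ∧
      (∀ (S : Set P) (hS : IsSpread S) (g : kS k S hS.convex ⟶ M), ∃ h, h ≫ p = g) ∧
      HasSpreadRes n K

end Pool.Agent.X317.SR
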