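import Mathlib

/-!
# Finite resolutions of modules by a class of projective modules
-/

set_option autoImplicit false
set_option linter.all false

namespace Pool.Agent.X317.SR

universe u

variable {Γ : Type u} [Ring Γ]

/-- a class of modules -/
abbrev Cls (Γ : Type u) [Ring Γ] : Type (u + 1) :=
  ∀ (M : Type u) [AddCommGroup M] [Module Γ M], Prop

/-- a resolution of length `< n` by modules in the class -/
def FR (Pc : Cls Γ) : ℕ → ∀ (M : Type u) [AddCommGroup M] [Module Γ M], Prop
  | 0, M, _, _ => Subsingleton M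
  | n + 1, M, _, _ => ∃ (P : Type u) (_ : AddCommGroup P) (_ : Module Γ P) (f : P →ₗ[Γ] M),
      Pc P ∧ Function.Surjective f ∧ FR Pc n (LinearMap.ker f)

/-- a good class: closed under products, contains zero, lifting property -/
structure GoodCls (Pc : Cls Γ) : Prop where
  lift : ∀ (P M N : Type u) [AddCommGroup P] [Module Γ P] [AddCommGroup M] [Module Γ M]
    [AddCommGroup N] [Module Γ N], Pc P → ∀ (g : M →ₗ[Γ] N), Function.Surjective g →
    ∀ h : P →ₗ[Γ] N, ∃ h' : P →ₗ[Γ] M, ∀ x, g (h' x) = h x
  prod : ∀ (P Q : Type u) [AddCommGroup P] [Module Γ P] [AddCommGroup Q] [Module Γ Q],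
    Pc P → Pc Q → Pc (P × Q)
  zero : Pc PUnit.{u + 1}

variable {Pc : Cls Γ}

theorem FR_equiv (n : ℕ) : ∀ {M N : Type u} [AddCommGroup M] [Module Γ M] [AddCommGroup N]
    [Module Γ N] (e : M ≃ₗ[Γ] N), FR Pc n M → FR Pc n N := by
  induction n with
  | zero =>
    intro M N _ _ _ _ e h
    haveI : Subsingleton M := h
    exact e.symm.toEquiv.subsingleton
  | succ n ih =>
    intro M N _ _ _ _ e h
    obtain ⟨P, i1, i2, f, hP, hf, hk⟩ := h
    refine ⟨P, i1, i2, e.toLinearMap.comp f, hP, e.surjective.comp hf, ?_⟩
    have h2 : LinearMap.ker f = LinearMap.ker (e.toLinearMap.comp f) := by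
      ext x
      simp
    exact ih (LinearEquiv.ofEq _ _ h2) hk

theorem FR_of_subsingleton (hG : GoodCls Pc) (n : ℕ) : ∀ (M : Type u) [AddCommGroup M] [Module Γ M],
    Subsingleton M → FR Pc n M := by
  induction n with
  | zero =>
    intro M _ _ h
    exact h
  | succ n ih =>
    intro M _ _ h
    refine ⟨PUnit.{u + 1}, inferInstance, inferInstance, 0, hG.zero, ?_, ?_⟩
    · intro x
      exact ⟨0, Subsingleton.elim _ _⟩
    · apply ih
      infer_instance

theorem FR_succ (hG : GoodCls Pc) (n : ℕ) : ∀ (M : Type u) [AddCommGroup M] [Module Γ M],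
    FR Pc n M → FR Pc (n + 1) M := by
  induction n with
  | zero =>
    intro M _ _ h
    exact FR_of_subsingleton hG 1 M h
  | succ n ih =>
    intro M _ _ h
    obtain ⟨P, i1, i2, f, hP, hf, hk⟩ := h
    exact ⟨P, i1, i2, f, hP, hf, ih _ hk⟩

theorem FR_mono (hG : GoodCls Pc) {n m : ℕ} (h : n ≤ m) (M : Type u) [AddCommGroup M] [Module Γ M]
    (hM : FR Pc n M) : FR Pc m M := by
  induction h with
  | refl => exact hM
  | step _ ih => exact FR_succ hG _ _ ih

theorem FR_of_Pc (hG : GoodCls Pc) (P : Type u) [AddCommGroup P] [Module Γ P] (hP : Pc P) :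
    FR Pc 1 P := by
  refine ⟨P, inferInstance, inferInstance, LinearMap.id, hP, Function.surjective_id, ?_⟩
  show Subsingleton _
  rw [LinearMap.ker_id]
  infer_instance

theorem FR_ext (hG : GoodCls Pc) (n : ℕ) : ∀ {B C : Type u} [AddCommGroup B] [Module Γ B]
    [AddCommGroup C] [Module Γ C] (p : B →ₗ[Γ] C), Function.Surjective p →
    FR Pc n (LinearMap.ker p) → FR Pc n C → FR Pc n B := by
  induction n with
  | zero =>
    intro B C _ _ _ _ p hp hA hC
    haveI : Subsingleton (LinearMap.ker p) := hA
    haveI : Subsingleton C := hC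
    show Subsingleton B
    constructor
    intro a b
    have h1 : p (a - b) = 0 := Subsingleton.elim _ _
    have h2 : (⟨a - b, h1⟩ : LinearMap.ker p) = 0 := Subsingleton.elim _ _
    have h3 : a - b = 0 := congrArg Subtype.val h2
    exact sub_eq_zero.1 h3
  | succ n ih =>
    intro B C _ _ _ _ p hp hA hC
    obtain ⟨P, i1, i2, f, hP, hf, hk⟩ := hA
    obtain ⟨Q, i3, i4, g, hQ, hg, hl⟩ := hC
    obtain ⟨l, hl2⟩ := hG.lift Q B C hQ p hp g
    let F : P × Q →ₗ[Γ] B := LinearMap.coprod ((LinearMap.ker p).subtype.comp f) l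
    have hF : ∀ x, F x = (f x.1 : B) + l x.2 := fun x => rfl
    refine ⟨P × Q, inferInstance, inferInstance, F, hG.prod P Q hP hQ, ?_, ?_⟩
    · intro b
      obtain ⟨c, hc⟩ := hg (p b)
      have h1 : p (b - l c) = 0 := by rw [map_sub, hl2, hc, sub_self]
      obtain ⟨a, ha⟩ := hf ⟨b - l c, h1⟩
      refine ⟨(a, c), ?_⟩
      rw [hF]
      show (f a : B) + l c = b
      rw [ha]
      show b - l c + l c = b
      abel
    · let q : LinearMap.ker F →ₗ[Γ] LinearMap.ker g :=
        LinearMap.codRestrict (LinearMap.ker g) ((LinearMap.snd Γ P Q).comp (LinearMap.ker F).subtype) (by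
          intro x
          have hx : F x.1 = 0 := x.2
          rw [hF] at hx
          have h1 := congrArg p hx
          rw [map_add, hl2, map_zero] at h1
          have h2 : p (f x.1.1 : B) = 0 := (f x.1.1).2
          rw [h2, zero_add] at h1
          exact h1)
      have hq : Function.Surjective q := by
        intro y
        have h1 : p (l y.1) = 0 := by rw [hl2]; exact y.2
        obtain ⟨a, ha⟩ := hf ⟨l y.1, h1⟩
        refine ⟨⟨(-a, y.1), ?_⟩, ?_⟩
        · show F (-a, y.1) = 0
          rw [hF]
          show (f (-a) : B) + l y.1 = 0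
          rw [map_neg, ha]
          show -(l y.1) + l y.1 = 0
          abel
        · apply Subtype.ext
          rfl
      refine ih q hq ?_ hl
      let e : LinearMap.ker f ≃ₗ[Γ] LinearMap.ker q :=
        { toFun := fun a => ⟨⟨(a.1, 0), by
              show F (a.1, 0) = 0
              rw [hF]
              show (f a.1 : B) + l 0 = 0
              have h1 : f a.1 = 0 := a.2
              rw [h1, map_zero, add_zero]
              rfl⟩, by
              apply Subtype.ext
              rfl⟩
          map_add' := by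
            intro a b
            apply Subtype.ext
            apply Subtype.ext
            show ((a.1 + b.1, (0 : Q)) : P × Q) = (a.1, 0) + (b.1, 0)
            rw [Prod.mk_add_mk, add_zero]
          map_smul' := by
            intro r a
            apply Subtype.ext
            apply Subtype.ext
            show ((r • a.1, (0 : Q)) : P × Q) = r • (a.1, 0)
            rw [Prod.smul_mk, smul_zero]
          invFun := fun x => ⟨x.1.1.1, by
            have h1 : q x.1 = 0 := x.2
            have h2 : x.1.1.2 = 0 := congrArg Subtype.val h1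
            have h3 : F x.1.1 = 0 := x.1.2
            rw [hF, h2, map_zero, add_zero] at h3
            exact Subtype.ext h3⟩
          left_inv := fun a => rfl
          right_inv := by
            intro x
            apply Subtype.ext
            apply Subtype.ext
            have h1 : q x.1 = 0 := x.2
            have h2 : x.1.1.2 = 0 := congrArg Subtype.val h1
            exact Prod.ext rfl h2.symm }
      exact FR_equiv n e hk

/-- the cokernel of a monomorphism -/
theorem FR_coker (hG : GoodCls Pc) {n m : ℕ} {B C : Type u} [AddCommGroup B] [Module Γ B]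
    [AddCommGroup C] [Module Γ C] (p : B →ₗ[Γ] C) (hp : Function.Surjective p)
    (hA : FR Pc n (LinearMap.ker p)) (hB : FR Pc (m + 1) B) : FR Pc (max n m + 1) C := by
  obtain ⟨P, i1, i2, f, hP, hf, hk⟩ := hB
  refine ⟨P, i1, i2, p.comp f, hP, hp.comp hf, ?_⟩
  let q : LinearMap.ker (p.comp f) →ₗ[Γ] LinearMap.ker p :=
    LinearMap.codRestrict (LinearMap.ker p) (f.comp (LinearMap.ker (p.comp f)).subtype) (fun x => x.2)
  have hq : Function.Surjective q := by
    intro y
    obtain ⟨a, ha⟩ := hf y.1
    refine ⟨⟨a, ?_⟩, ?_⟩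
    · show p (f a) = 0
      rw [ha]
      exact y.2
    · apply Subtype.ext
      exact ha
  refine FR_ext hG _ q hq ?_ (FR_mono hG (le_max_left n m) _ hA)
  refine FR_mono hG (le_max_right n m) _ ?_
  let e : LinearMap.ker f ≃ₗ[Γ] LinearMap.ker q :=
    { toFun := fun a => ⟨⟨a.1, by
          show p (f a.1) = 0
          have h1 : f a.1 = 0 := a.2
          rw [h1, map_zero]⟩, by
          apply Subtype.ext
          exact a.2⟩
      map_add' := fun a b => rfl
      map_smul' := fun r a => rfl
      invFun := fun x => ⟨x.1.1, by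
        have h1 : q x.1 = 0 := x.2
        exact congrArg Subtype.val h1⟩
      left_inv := fun a => rfl
      right_inv := fun x => rfl }
  exact FR_equiv m e hk

/-- finite resolution -/
def FF (Pc : Cls Γ) (M : Type u) [AddCommGroup M] [Module Γ M] : Prop := ∃ n, FR Pc n M

theorem FF_equiv {M N : Type u} [AddCommGroup M] [Module Γ M] [AddCommGroup N]
    [Module Γ N] (e : M ≃ₗ[Γ] N) (h : FF Pc M) : FF Pc N := by
  obtain ⟨n, hn⟩ := h
  exact ⟨n, FR_equiv n e hn⟩

theorem FF_ext (hG : GoodCls Pc) {B C : Type u} [AddCommGroup B] [Module Γ B]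
    [AddCommGroup C] [Module Γ C] (p : B →ₗ[Γ] C) (hp : Function.Surjective p)
    (hA : FF Pc (LinearMap.ker p)) (hC : FF Pc C) : FF Pc B := by
  obtain ⟨n, hn⟩ := hA
  obtain ⟨m, hm⟩ := hC
  exact ⟨max n m, FR_ext hG _ p hp (FR_mono hG (le_max_left n m) _ hn)
    (FR_mono hG (le_max_right n m) _ hm)⟩

theorem FF_coker (hG : GoodCls Pc) {B C : Type u} [AddCommGroup B] [Module Γ B]
    [AddCommGroup C] [Module Γ C] (p : B →ₗ[Γ] C) (hp : Function.Surjective p)
    (hA : FF Pc (LinearMap.ker p)) (hB : FF Pc B) : FF Pc C := by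
  obtain ⟨n, hn⟩ := hA
  obtain ⟨m, hm⟩ := hB
  exact ⟨_, FR_coker hG p hp hn (FR_succ hG _ _ hm)⟩

theorem FF_sub (hG : GoodCls Pc) {B : Type u} [AddCommGroup B] [Module Γ B] (N : Submodule Γ B)
    (hA : FF Pc N) (hC : FF Pc (B ⧸ N)) : FF Pc B := by
  refine FF_ext hG N.mkQ (Submodule.mkQ_surjective N) ?_ hC
  exact FF_equiv (LinearEquiv.ofEq _ _ (Submodule.ker_mkQ N).symm) hA

theorem FF_zero (M : Type u) [AddCommGroup M] [Module Γ M] (h : Subsingleton M) : FF Pc M :=
  ⟨0, h⟩

theorem FF_sup (hG : GoodCls Pc) {B : Type u} [AddCommGroup B] [Module Γ B] (U V : Submodule Γ B)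
    (hU : FF Pc U) (hV : FF Pc V) (hI : FF Pc (U ⊓ V : Submodule Γ B)) :
    FF Pc (U ⊔ V : Submodule Γ B) := by
  have hprod : FF Pc (U × V) := by
    refine FF_ext hG (LinearMap.snd Γ U V) (fun y => ⟨(0, y), rfl⟩) ?_ hV
    let e : U ≃ₗ[Γ] LinearMap.ker (LinearMap.snd Γ U V) :=
      { toFun := fun a => ⟨(a, 0), rfl⟩
        map_add' := by
          intro a b
          apply Subtype.ext
          show ((a + b, (0 : V)) : U × V) = (a, 0) + (b, 0)
          rw [Prod.mk_add_mk, add_zero]
        map_smul' := by
          intro r a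
          apply Subtype.ext
          show ((r • a, (0 : V)) : U × V) = r • (a, 0)
          rw [Prod.smul_mk, smul_zero]
        invFun := fun x => x.1.1
        left_inv := fun a => rfl
        right_inv := by
          intro x
          apply Subtype.ext
          have h1 : x.1.2 = 0 := x.2
          exact Prod.ext rfl h1.symm }
    exact FF_equiv e hU
  let p : U × V →ₗ[Γ] (U ⊔ V : Submodule Γ B) :=
    LinearMap.coprod (Submodule.inclusion le_sup_left) (Submodule.inclusion le_sup_right)
  have hp1 : ∀ x, (p x : B) = x.1 + x.2 := fun x => rfl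
  have hp : Function.Surjective p := by
    rintro ⟨y, hy⟩
    obtain ⟨a, ha, b, hb, hab⟩ := Submodule.mem_sup.1 hy
    refine ⟨(⟨a, ha⟩, ⟨b, hb⟩), ?_⟩
    apply Subtype.ext
    rw [hp1]
    exact hab
  refine FF_coker hG p hp ?_ hprod
  let e : (U ⊓ V : Submodule Γ B) ≃ₗ[Γ] LinearMap.ker p :=
    { toFun := fun a => ⟨(⟨a.1, a.2.1⟩, ⟨-a.1, V.neg_mem a.2.2⟩), by
          apply Subtype.ext
          rw [hp1]
          show a.1 + -a.1 = 0
          abel⟩
      map_add' := by
        intro a b
        apply Subtype.ext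
        apply Prod.ext
        · apply Subtype.ext
          rfl
        · apply Subtype.ext
          show -(a.1 + b.1) = -a.1 + -b.1
          abel
      map_smul' := by
        intro r a
        apply Subtype.ext
        apply Prod.ext
        · apply Subtype.ext
          rfl
        · apply Subtype.ext
          show -(r • a.1) = r • -a.1
          rw [smul_neg]
      invFun := fun x => ⟨x.1.1.1, x.1.1.2, by
        have h1 : (p x.1 : B) = 0 := congrArg Subtype.val (show p x.1 = 0 from x.2)
        rw [hp1] at h1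
        have h2 : (x.1.1 : B) = -(x.1.2 : B) := eq_neg_of_add_eq_zero_left h1
        rw [h2]
        exact V.neg_mem x.1.2.2⟩
      left_inv := fun a => rfl
      right_inv := by
        intro x
        have h1 : (p x.1 : B) = 0 := congrArg Subtype.val (show p x.1 = 0 from x.2)
        rw [hp1] at h1
        apply Subtype.ext
        apply Prod.ext
        · apply Subtype.ext
          rfl
        · apply Subtype.ext
          show -(x.1.1 : B) = x.1.2
          exact neg_eq_of_add_eq_zero_right h1 }
  exact FF_equiv e hI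

end Pool.Agent.X317.SR
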