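import Mathlib
import Pool.Agent.X317.SR.FR
import Pool.Agent.X317.SR.KS

/-!
# Modules over the endomorphism ring of the sum of all convex representations
-/

set_option autoImplicit false
set_option linter.all false

namespace Pool.Agent.X317.SR

open CategoryTheory CategoryTheory.Limits
open Classical ZeroObject

universe u

/-- convex subsets -/
def Cvx (P : Type u) [PartialOrder P] : Type u := {S : Set P // S.OrdConnected}

instance {P : Type u} [PartialOrder P] [Finite P] : Finite (Cvx P) := Subtype.finite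

noncomputable instance {P : Type u} [PartialOrder P] [Finite P] : Fintype (Cvx P) := Fintype.ofFinite _

/-- the representation of a convex set -/
noncomputable abbrev kC (k : Type u) [Field k] {P : Type u} [PartialOrder P] (S : Cvx P) : Rep k P :=
  kS k S.1 S.2

variable (k : Type u) [Field k] (J : Type u) [PartialOrder J] [Finite J]

/-- the sum of all convex representations, abstractly -/
structure Gen where
  X : Rep k J
  i : ∀ S : Cvx J, kC k S ⟶ X
  p : ∀ S : Cvx J, X ⟶ kC k S
  ip : ∀ S, i S ≫ p S = 𝟙 _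
  tot : ∑ S, p S ≫ i S = 𝟙 X

theorem exists_gen : Nonempty (Gen k J) := by
  haveI : HasFiniteBiproducts (Rep k J) := HasFiniteBiproducts.of_hasFiniteProducts
  haveI : HasBiproductsOfShape (Cvx J) (Rep k J) := hasBiproductsOfShape_finite _
  exact
  ⟨{ X := ⨁ (fun S : Cvx J => kC k S)
     i := fun S => biproduct.ι (fun S : Cvx J => kC k S) S
     p := fun S => biproduct.π (fun S : Cvx J => kC k S) S
     ip := fun S => biproduct.ι_π_self _ S
     tot := by
       apply biproduct.hom_ext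
       intro j
       rw [Preadditive.sum_comp, Finset.sum_eq_single j]
       · rw [Category.assoc, biproduct.ι_π_self, Category.comp_id, Category.id_comp]
       · intro b _ hb
         rw [Category.assoc, biproduct.ι_π_ne _ hb, comp_zero]
       · intro h
         exact absurd (Finset.mem_univ j) h }⟩

variable {k J}
variable (G : Gen k J)

/-- the opposite endomorphism ring -/
abbrev Gm : Type u := (End G.X)ᵐᵒᵖ

/-- ring elements -/
def rr (f : G.X ⟶ G.X) : Gm G := MulOpposite.op f

theorem rr_smul {Y : Rep k J} (f : G.X ⟶ G.X) (g : G.X ⟶ Y) : rr G f • g = f ≫ g := rfl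

theorem rr_comp (f g : G.X ⟶ G.X) : rr G (f ≫ g) = rr G f * rr G g := rfl

theorem rr_add (f g : G.X ⟶ G.X) : rr G (f + g) = rr G f + rr G g := rfl

theorem rr_zero : rr G (0 : G.X ⟶ G.X) = 0 := rfl

theorem rr_one : rr G (𝟙 G.X) = 1 := rfl

theorem rr_sum {I : Type*} (s : Finset I) (f : I → (G.X ⟶ G.X)) :
    rr G (∑ i ∈ s, f i) = ∑ i ∈ s, rr G (f i) := by
  induction s using Finset.induction with
  | empty => rfl
  | insert a s ha ih => rw [Finset.sum_insert ha, Finset.sum_insert ha, rr_add, ih]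

theorem smul_unop {Y : Rep k J} (r : Gm G) (g : G.X ⟶ Y) : r • g = r.unop ≫ g := rfl

/-- finite sums of convex representations -/
def SumC (Y : Rep k J) : Prop :=
  ∃ (I : Type) (_ : Fintype I) (S : I → Cvx J) (a : ∀ i, kC k (S i) ⟶ Y) (b : ∀ i, Y ⟶ kC k (S i)),
    (∀ i, a i ≫ b i = 𝟙 _) ∧ (∀ i j, i ≠ j → a i ≫ b j = 0) ∧ ∑ i, b i ≫ a i = 𝟙 Y

/-- the class of modules -/
def PcG : Cls (Gm G) := fun M _ _ => ∃ Y : Rep k J, SumC Y ∧ Nonempty ((G.X ⟶ Y) ≃ₗ[Gm G] M)

theorem key_lin {Y : Rep k J} {I : Type} [Fintype I] (S : I → Cvx J) (a : ∀ i, kC k (S i) ⟶ Y)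
    (b : ∀ i, Y ⟶ kC k (S i)) (htot : ∑ i, b i ≫ a i = 𝟙 Y) {N : Type u} [AddCommGroup N]
    [Module (Gm G) N] (H : (G.X ⟶ Y) →ₗ[Gm G] N) (f : G.X ⟶ Y) :
    H f = ∑ i, rr G (f ≫ b i ≫ G.i (S i)) • H (G.p (S i) ≫ a i) := by
  have h1 : f = ∑ i, rr G (f ≫ b i ≫ G.i (S i)) • (G.p (S i) ≫ a i) := by
    have h2 : ∀ i, rr G (f ≫ b i ≫ G.i (S i)) • (G.p (S i) ≫ a i) = f ≫ b i ≫ a i := by
      intro i
      rw [rr_smul]
      simp only [Category.assoc]
      rw [reassoc_of% (G.ip (S i))]
    rw [Finset.sum_congr rfl (fun i _ => h2 i), ← Preadditive.comp_sum, htot, Category.comp_id]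
  conv_lhs => rw [h1]
  rw [map_sum]
  apply Finset.sum_congr rfl
  intro i _
  rw [map_smul]

theorem SumC_zero : SumC (0 : Rep k J) := by
  refine ⟨Empty, inferInstance, fun i => i.elim, fun i => i.elim, fun i => i.elim, fun i => i.elim,
    fun i => i.elim, ?_⟩
  exact (isZero_zero (Rep k J)).eq_of_src _ _

theorem SumC_one (S : Cvx J) : SumC (kC k S) := by
  refine ⟨Unit, inferInstance, fun _ => S, fun _ => 𝟙 _, fun _ => 𝟙 _, ?_, ?_, ?_⟩
  · intro i
    simp
  · intro i j h
    exact absurd (Subsingleton.elim i j) h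
  · simp

theorem SumC_biprod {Y Z : Rep k J} (hY : SumC Y) (hZ : SumC Z) : SumC (Y ⊞ Z) := by
  obtain ⟨I, _, S, a, b, h1, h2, h3⟩ := hY
  obtain ⟨I', _, S', a', b', h1', h2', h3'⟩ := hZ
  refine ⟨I ⊕ I', inferInstance, Sum.elim S S',
    fun i => match i with
      | Sum.inl i => a i ≫ biprod.inl
      | Sum.inr i => a' i ≫ biprod.inr,
    fun i => match i with
      | Sum.inl i => biprod.fst ≫ b i
      | Sum.inr i => biprod.snd ≫ b' i, ?_, ?_, ?_⟩
  · rintro (i | i)
    · show (a i ≫ biprod.inl) ≫ biprod.fst ≫ b i = 𝟙 _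
      rw [Category.assoc, biprod.inl_fst_assoc, h1]
    · show (a' i ≫ biprod.inr) ≫ biprod.snd ≫ b' i = 𝟙 _
      rw [Category.assoc, biprod.inr_snd_assoc, h1']
  · rintro (i | i) (j | j) hij
    · show (a i ≫ biprod.inl) ≫ biprod.fst ≫ b j = 0
      rw [Category.assoc, biprod.inl_fst_assoc]
      exact h2 i j (fun h => hij (by rw [h]))
    · show (a i ≫ biprod.inl) ≫ biprod.snd ≫ b' j = 0
      rw [Category.assoc, biprod.inl_snd_assoc, zero_comp, comp_zero]
    · show (a' i ≫ biprod.inr) ≫ biprod.fst ≫ b j = 0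
      rw [Category.assoc, biprod.inr_fst_assoc, zero_comp, comp_zero]
    · show (a' i ≫ biprod.inr) ≫ biprod.snd ≫ b' j = 0
      rw [Category.assoc, biprod.inr_snd_assoc]
      exact h2' i j (fun h => hij (by rw [h]))
  · rw [Fintype.sum_sum_type]
    show (∑ i, (biprod.fst ≫ b i) ≫ a i ≫ biprod.inl) + (∑ i, (biprod.snd ≫ b' i) ≫ a' i ≫ biprod.inr) = 𝟙 _
    have e1 : (∑ i, ((biprod.fst : Y ⊞ Z ⟶ Y) ≫ b i) ≫ a i ≫ (biprod.inl : Y ⟶ Y ⊞ Z)) =
        (biprod.fst : Y ⊞ Z ⟶ Y) ≫ (∑ i, b i ≫ a i) ≫ (biprod.inl : Y ⟶ Y ⊞ Z) := by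
      rw [Preadditive.sum_comp, Preadditive.comp_sum]
      apply Finset.sum_congr rfl
      intro i _
      simp only [Category.assoc]
    have e2 : (∑ i, ((biprod.snd : Y ⊞ Z ⟶ Z) ≫ b' i) ≫ a' i ≫ (biprod.inr : Z ⟶ Y ⊞ Z)) =
        (biprod.snd : Y ⊞ Z ⟶ Z) ≫ (∑ i, b' i ≫ a' i) ≫ (biprod.inr : Z ⟶ Y ⊞ Z) := by
      rw [Preadditive.sum_comp, Preadditive.comp_sum]
      apply Finset.sum_congr rfl
      intro i _
      simp only [Category.assoc]
    rw [e1, e2, h3, h3', Category.id_comp, Category.id_comp, biprod.total]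

theorem good : GoodCls (PcG G) where
  lift := by
    intro P M N _ _ _ _ _ _ hP g hg h
    obtain ⟨Y, ⟨I, _, S, a, b, h1, h2, htot⟩, ⟨e⟩⟩ := hP
    let H : (G.X ⟶ Y) →ₗ[Gm G] N := h.comp e.toLinearMap
    have hy : ∀ i, ∃ y : M, g y = H (G.p (S i) ≫ a i) := fun i => hg _
    choose y hy using hy
    let L : (G.X ⟶ Y) →ₗ[Gm G] M :=
      { toFun := fun f => ∑ i, rr G (f ≫ b i ≫ G.i (S i)) • y i
        map_add' := by
          intro f f'
          rw [← Finset.sum_add_distrib]
          apply Finset.sum_congr rfl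
          intro i _
          rw [Preadditive.add_comp, rr_add, add_smul]
        map_smul' := by
          intro r f
          rw [RingHom.id_apply, Finset.smul_sum]
          apply Finset.sum_congr rfl
          intro i _
          rw [smul_unop, Category.assoc]
          have h5 : rr G (r.unop ≫ f ≫ b i ≫ G.i (S i)) = r * rr G (f ≫ b i ≫ G.i (S i)) := rfl
          rw [h5, mul_smul] }
    refine ⟨L.comp e.symm.toLinearMap, ?_⟩
    intro x
    have h3 := key_lin G S a b htot H (e.symm x)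
    have h4 : H (e.symm x) = h x := by
      show h (e (e.symm x)) = h x
      rw [LinearEquiv.apply_symm_apply]
    rw [← h4, h3]
    show g (∑ i, rr G (e.symm x ≫ b i ≫ G.i (S i)) • y i) = _
    rw [map_sum]
    apply Finset.sum_congr rfl
    intro i _
    rw [map_smul, hy]
  prod := by
    intro P Q _ _ _ _ hP hQ
    obtain ⟨Y, hY, ⟨e⟩⟩ := hP
    obtain ⟨Z, hZ, ⟨e'⟩⟩ := hQ
    refine ⟨Y ⊞ Z, SumC_biprod hY hZ, ⟨?_⟩⟩
    let E : (G.X ⟶ Y ⊞ Z) ≃ₗ[Gm G] (G.X ⟶ Y) × (G.X ⟶ Z) :=
      { toFun := fun f => (f ≫ biprod.fst, f ≫ biprod.snd)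
        map_add' := by
          intro f g
          rw [Preadditive.add_comp, Preadditive.add_comp]
          rfl
        map_smul' := by
          intro r f
          apply Prod.ext
          · show (r.unop ≫ f) ≫ biprod.fst = r.unop ≫ f ≫ biprod.fst
            rw [Category.assoc]
          · show (r.unop ≫ f) ≫ biprod.snd = r.unop ≫ f ≫ biprod.snd
            rw [Category.assoc]
        invFun := fun x => biprod.lift x.1 x.2
        left_inv := by
          intro f
          apply biprod.hom_ext <;> simp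
        right_inv := by
          intro x
          apply Prod.ext <;> simp }
    exact E.trans (LinearEquiv.prodCongr e e')
  zero := by
    refine ⟨0, SumC_zero, ⟨?_⟩⟩
    exact
      { toFun := fun _ => 0
        map_add' := fun _ _ => rfl
        map_smul' := fun _ _ => rfl
        invFun := fun _ => 0
        left_inv := fun f => (isZero_zero (Rep k J)).eq_of_tgt _ _
        right_inv := fun f => rfl }

/-- maps supported in `V` -/
def Av {U : Cvx J} (V : Set J) : Submodule (Gm G) (G.X ⟶ kC k U) where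
  carrier := {f | ∀ p, p ∉ V → ∀ x, (f.app p).hom x = 0}
  zero_mem' := fun p hp x => rfl
  add_mem' := by
    intro f g hf hg p hp x
    show (f.app p).hom x + (g.app p).hom x = 0
    rw [hf p hp x, hg p hp x, add_zero]
  smul_mem' := by
    intro r f hf p hp x
    show (f.app p).hom _ = 0
    exact hf p hp _

theorem Av_mono {U : Cvx J} {V W : Set J} (h : V ⊆ W) : (Av G V : Submodule (Gm G) (G.X ⟶ kC k U)) ≤ Av G W :=
  fun f hf p hp x => hf p (fun hV => hp (h hV)) x

/-- upsets of `U` -/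
def Up (U V : Set J) : Prop := V ⊆ U ∧ ∀ p ∈ V, ∀ q ∈ U, p ≤ q → q ∈ V

theorem Up_conn {U V : Set J} (hU : U.OrdConnected) (h : Up U V) : V.OrdConnected := by
  constructor
  intro x hx y hy z hz
  exact h.2 x hx z (hU.out (h.1 hx) (h.1 hy) hz) hz.1

theorem Up_inter {U V W : Set J} (h : Up U V) (h' : Up U W) : Up U (V ∩ W) :=
  ⟨fun x hx => h.1 hx.1, fun p hp q hq hpq => ⟨h.2 p hp.1 q hq hpq, h'.2 p hp.2 q hq hpq⟩⟩

/-- inclusion of an upset -/
noncomputable def inc {U : Cvx J} {V : Set J} (h : Up U.1 V) : kS k V (Up_conn U.2 h) ⟶ kC k U :=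
  mkC V (Up_conn U.2 h) U.1 U.2 (fun p => if p ∈ V then 1 else 0)
    (fun p hp => if_neg (fun hV => hp ⟨hV, h.1 hV⟩))
    (fun p q hpq hp hq => by rw [if_pos hp, if_pos (h.2 p hp q hq hpq)])

theorem inc_app {U : Cvx J} {V : Set J} (h : Up U.1 V) (p : J) (x : cell k V p) :
    (((inc (k := k) h).app p).hom x : cell k U.1 p).1 = x.1 := by
  show x.1 * (if p ∈ V then 1 else 0) = x.1
  by_cases hx : x.1 = 0
  · rw [hx, zero_mul]
  · rw [if_pos (cell_mem k x hx), mul_one]

/-- corestriction to an upset -/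
noncomputable def cor {Y : Rep k J} {U : Cvx J} {V : Set J} (h : Up U.1 V) (f : Y ⟶ kC k U)
    (hf : ∀ p, p ∉ V → ∀ x, (f.app p).hom x = 0) : Y ⟶ kS k V (Up_conn U.2 h) where
  app p := ModuleCat.ofHom
    { toFun := fun x => (⟨((f.app p).hom x : cell k U.1 p).1, fun hp => by
        rw [hf p hp x]
        rfl⟩ : cell k V p)
      map_add' := by
        intro x y
        apply Subtype.ext
        show ((f.app p).hom (x + y) : cell k U.1 p).1 = ((f.app p).hom x : cell k U.1 p).1 + ((f.app p).hom y : cell k U.1 p).1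
        rw [map_add]
        rfl
      map_smul' := by
        intro c x
        apply Subtype.ext
        show ((f.app p).hom (c • x) : cell k U.1 p).1 = c * ((f.app p).hom x : cell k U.1 p).1
        rw [map_smul]
        rfl }
  naturality p q g := by
    apply ModuleCat.hom_ext
    apply LinearMap.ext
    intro x
    apply Subtype.ext
    have h1 := nat_ap f g x
    have h2 := congrArg (fun y : cell k U.1 q => y.1) h1
    have h3 := kS_map k U.2 g ((f.app p).hom x)
    refine h2.trans (h3.trans ?_)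
    refine Eq.trans ?_ (kS_map k (Up_conn U.2 h) g _).symm
    show (if q ∈ U.1 then ((f.app p).hom x : cell k U.1 p).1 else 0) = (if q ∈ V then ((f.app p).hom x : cell k U.1 p).1 else 0)
    by_cases hx : ((f.app p).hom x : cell k U.1 p).1 = 0
    · rw [hx]
      simp
    · have hpV : p ∈ V := by
        by_contra hp
        apply hx
        rw [hf p hp x]
        rfl
      by_cases hq : q ∈ U.1
      · rw [if_pos hq, if_pos (h.2 p hpV q hq (leOfHom g))]
      · rw [if_neg hq, if_neg (fun hV => hq (h.1 hV))]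

theorem cor_inc {Y : Rep k J} {U : Cvx J} {V : Set J} (h : Up U.1 V) (f : Y ⟶ kC k U)
    (hf : ∀ p, p ∉ V → ∀ x, (f.app p).hom x = 0) : cor h f hf ≫ inc h = f := by
  apply rep_ext
  intro p x
  apply Subtype.ext
  exact inc_app h p _

theorem inc_supp {Y : Rep k J} {U : Cvx J} {V : Set J} (h : Up U.1 V) (f : Y ⟶ kS k V (Up_conn U.2 h))
    (p : J) (hp : p ∉ V) (x : Y.obj p) : ((f ≫ inc h).app p).hom x = 0 := by
  apply Subtype.ext
  refine (inc_app h p _).trans ?_
  exact ((f.app p).hom x : cell k V p).2 hp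

theorem inc_cor {Y : Rep k J} {U : Cvx J} {V : Set J} (h : Up U.1 V) (f : Y ⟶ kS k V (Up_conn U.2 h)) :
    cor h (f ≫ inc h) (inc_supp h f) = f := by
  apply rep_ext
  intro p x
  apply Subtype.ext
  exact inc_app h p _

theorem FF_Av {U : Cvx J} {V : Set J} (h : Up U.1 V) :
    FF (PcG G) (Av G V : Submodule (Gm G) (G.X ⟶ kC k U)) := by
  let V' : Cvx J := ⟨V, Up_conn U.2 h⟩
  refine ⟨1, FR_of_Pc (good G) _ ⟨kC k V', SumC_one V', ⟨?_⟩⟩⟩
  exact
    { toFun := fun f => ⟨f ≫ inc h, inc_supp h f⟩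
      map_add' := by
        intro f g
        apply Subtype.ext
        exact Preadditive.add_comp _ _ _ _ _ _
      map_smul' := by
        intro r f
        apply Subtype.ext
        exact Category.assoc _ _ _
      invFun := fun f => cor h f.1 f.2
      left_inv := fun f => inc_cor h f
      right_inv := fun f => Subtype.ext (cor_inc h f.1 f.2) }

end Pool.Agent.X317.SR
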