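import Mathlib
import Pool.Agent.X317.SR.Gam

/-!
# All modules of finite length have finite resolutions
-/

set_option autoImplicit false
set_option linter.all false

namespace Pool.Agent.X317.SR

open CategoryTheory CategoryTheory.Limits
open Classical ZeroObject

universe u

variable {k : Type u} [Field k] {J : Type u} [PartialOrder J] [Finite J]

/-- adjacency inside `S ∩ U` -/
def adj (S U : Set J) (p q : J) : Prop := p ∈ S ∧ q ∈ U ∧ p ∈ U ∧ q ∈ S ∧ p ≤ q

/-- the component of `p` is inside `V` -/
def gd (S U V : Set J) (p : J) : Prop := ∀ q, Relation.EqvGen (adj S U) p q → q ∈ V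

theorem gd_iff {S U V : Set J} {p q : J} (h : adj S U p q) : gd S U V p ↔ gd S U V q := by
  constructor
  · intro hp x hx
    exact hp x (Relation.EqvGen.trans _ _ _ (Relation.EqvGen.rel _ _ h) hx)
  · intro hq x hx
    exact hq x (Relation.EqvGen.trans _ _ _ (Relation.EqvGen.symm _ _ (Relation.EqvGen.rel _ _ h)) hx)

theorem co_ne {S U : Cvx J} (f : kC k S ⟶ kC k U) {p : J} (h : co f p ≠ 0) : p ∈ S.1 ∧ p ∈ U.1 := by
  constructor
  · by_contra hp
    exact h (co_zero_left f hp)
  · by_contra hp
    exact h (co_zero_right f hp)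

/-- projection to the maps supported in `V` -/
noncomputable def rho {S U : Cvx J} (V : Set J) (f : kC k S ⟶ kC k U) : kC k S ⟶ kC k U :=
  mkC S.1 S.2 U.1 U.2 (fun p => if gd S.1 U.1 V p then co f p else 0)
    (fun p hp => by
      have h1 : co f p = 0 := by
        by_contra h
        exact hp (co_ne f h)
      rw [h1]
      simp)
    (fun p q hpq hp hq => by
      have h1 : co f q = co f p := co_map f hpq hp hq
      by_cases h0 : co f p = 0
      · rw [h1, h0]
        simp
      · have h2 := co_ne f h0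
        have h3 : co f q ≠ 0 := by
          rw [h1]
          exact h0
        have h4 := co_ne f h3
        have h5 : adj S.1 U.1 p q := ⟨hp, hq, h2.2, h4.1, hpq⟩
        rw [h1]
        by_cases h6 : gd S.1 U.1 V p
        · rw [if_pos h6, if_pos ((gd_iff h5).1 h6)]
        · rw [if_neg h6, if_neg (fun h7 => h6 ((gd_iff h5).2 h7))])

theorem rho_co {S U : Cvx J} (V : Set J) (f : kC k S ⟶ kC k U) (p : J) :
    co (rho V f) p = if gd S.1 U.1 V p then co f p else 0 := mkC_co _ _ _ p

theorem co_add {S U : Cvx J} (f g : kC k S ⟶ kC k U) (p : J) : co (f + g) p = co f p + co g p := rfl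

theorem rho_add {S U : Cvx J} (V : Set J) (f g : kC k S ⟶ kC k U) :
    rho V (f + g) = rho V f + rho V g := by
  apply co_ext
  intro p
  rw [rho_co, co_add, co_add, rho_co, rho_co]
  split_ifs <;> simp

theorem rho_self {S U : Cvx J} (V : Set J) (f : kC k S ⟶ kC k U) (hf : ∀ p, p ∉ V → co f p = 0) :
    rho V f = f := by
  apply co_ext
  intro p
  rw [rho_co]
  by_cases h0 : co f p = 0
  · rw [h0]
    simp
  · rw [if_pos]
    intro q hq
    have h1 : ∀ x y, Relation.EqvGen (adj S.1 U.1) x y → co f x = co f y := by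
      intro x y hxy
      induction hxy with
      | rel x y h => exact (co_map f h.2.2.2.2 h.1 h.2.1).symm
      | refl x => rfl
      | symm x y _ ih => exact ih.symm
      | trans x y z _ _ ih1 ih2 => exact ih1.trans ih2
    by_contra hqV
    apply h0
    rw [h1 p q hq]
    exact hf q hqV

theorem rho_supp {S U : Cvx J} (V W : Set J) (f : kC k S ⟶ kC k U) (hf : ∀ p, p ∉ W → co f p = 0)
    (p : J) (hp : p ∉ W ∩ V) : co (rho V f) p = 0 := by
  rw [rho_co]
  by_cases h : gd S.1 U.1 V p
  · rw [if_pos h]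
    apply hf
    intro hW
    exact hp ⟨hW, h p (Relation.EqvGen.refl p)⟩
  · rw [if_neg h]

variable (G : Gen k J)

/-- the extension of `rho` -/
noncomputable def Rho {U : Cvx J} (V : Set J) (f : G.X ⟶ kC k U) : G.X ⟶ kC k U :=
  ∑ S, G.p S ≫ rho V (G.i S ≫ f)

theorem Rho_add {U : Cvx J} (V : Set J) (f g : G.X ⟶ kC k U) :
    Rho G V (f + g) = Rho G V f + Rho G V g := by
  unfold Rho
  rw [← Finset.sum_add_distrib]
  apply Finset.sum_congr rfl
  intro S _
  rw [Preadditive.comp_add, rho_add, Preadditive.comp_add]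

theorem supp_co {S U : Cvx J} (V : Set J) (f : G.X ⟶ kC k U) (hf : f ∈ Av G V) (p : J) (hp : p ∉ V) :
    co (G.i S ≫ f) p = 0 := by
  unfold co
  have h : el (G.i S ≫ f) p = 0 := hf p hp _
  rw [h]
  rfl

theorem Rho_self {U : Cvx J} (V : Set J) (f : G.X ⟶ kC k U) (hf : f ∈ Av G V) : Rho G V f = f := by
  unfold Rho
  have h1 : ∀ S : Cvx J, G.p S ≫ rho V (G.i S ≫ f) = (G.p S ≫ G.i S) ≫ f := by
    intro S
    rw [rho_self V _ (supp_co G V f hf), Category.assoc]
  rw [Finset.sum_congr rfl (fun S _ => h1 S), ← Preadditive.sum_comp, G.tot, Category.id_comp]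

theorem comp_mem_Av {S U : Cvx J} (V : Set J) (g : kC k S ⟶ kC k U) (hg : ∀ p, p ∉ V → co g p = 0) :
    G.p S ≫ g ∈ Av G V := by
  intro p hp x
  show (g.app p).hom (((G.p S).app p).hom x) = 0
  have h1 := el_apply g p (((G.p S).app p).hom x)
  have h2 : el g p = 0 := Subtype.ext (hg p hp)
  rw [h2, smul_zero] at h1
  exact h1

theorem Rho_supp {U : Cvx J} (V W : Set J) (f : G.X ⟶ kC k U) (hf : f ∈ Av G W) :
    Rho G V f ∈ Av G (W ∩ V) := by
  unfold Rho
  apply Submodule.sum_mem
  intro S _
  exact comp_mem_Av G _ _ (rho_supp V W _ (supp_co G W f hf))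

theorem Rho_sup {U : Cvx J} {I : Type*} (W : Set J) (s : Finset I) (V : I → Set J) :
    ∀ f : G.X ⟶ kC k U, f ∈ s.sup (fun i => Av G (V i)) →
    Rho G W f ∈ s.sup (fun i => (Av G (V i ∩ W) : Submodule (Gm G) (G.X ⟶ kC k U))) := by
  induction s using Finset.induction with
  | empty =>
    intro f hf
    rw [Finset.sup_empty] at hf ⊢
    rw [Submodule.mem_bot] at hf ⊢
    rw [hf]
    have h := Rho_add G W (0 : G.X ⟶ kC k U) 0
    rw [add_zero] at h
    exact left_eq_add.1 h
  | insert a s ha ih =>
    intro f hf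
    rw [Finset.sup_insert] at hf ⊢
    obtain ⟨x, hx, y, hy, hxy⟩ := Submodule.mem_sup.1 hf
    rw [← hxy, Rho_add]
    exact Submodule.add_mem_sup (Rho_supp G W _ x hx) (ih y hy)

theorem inter_sup {U : Cvx J} {I : Type*} (W : Set J) (s : Finset I) (V : I → Set J) :
    (Av G W ⊓ s.sup (fun i => Av G (V i)) : Submodule (Gm G) (G.X ⟶ kC k U)) =
      s.sup (fun i => (Av G (V i ∩ W) : Submodule (Gm G) (G.X ⟶ kC k U))) := by
  apply le_antisymm
  · rintro f ⟨h1, h2⟩
    have h3 := Rho_sup G W s V f h2
    rw [Rho_self G W f h1] at h3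
    exact h3
  · apply le_inf
    · apply Finset.sup_le
      intro i _
      exact Av_mono G Set.inter_subset_right
    · apply Finset.sup_mono_fun
      intro i _
      exact Av_mono G Set.inter_subset_left

theorem FF_sup_Av {U : Cvx J} {I : Type*} (s : Finset I) : ∀ (V : I → Set J),
    (∀ i ∈ s, Up U.1 (V i)) →
    FF (PcG G) (s.sup (fun i => Av G (V i)) : Submodule (Gm G) (G.X ⟶ kC k U)) := by
  induction s using Finset.induction with
  | empty =>
    intro V _
    apply FF_zero
    rw [Finset.sup_empty]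
    infer_instance
  | insert a s ha ih =>
    intro V hV
    rw [Finset.sup_insert]
    apply FF_sup (good G)
    · exact FF_Av G (hV a (Finset.mem_insert_self a s))
    · exact ih V (fun i hi => hV i (Finset.mem_insert_of_mem hi))
    · rw [inter_sup]
      exact ih _ (fun i hi => Up_inter (hV i (Finset.mem_insert_of_mem hi)) (hV a (Finset.mem_insert_self a s)))

/-- pointwise finite dimensional -/
def PFD (M : Rep k J) : Prop := ∀ p, FiniteDimensional k (M.obj p)

theorem fd_hom {M N : Rep k J} (hM : PFD M) (hN : PFD N) : FiniteDimensional k (M ⟶ N) := by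
  haveI : ∀ p, FiniteDimensional k (M.obj p) := hM
  haveI : ∀ p, FiniteDimensional k (N.obj p) := hN
  let L : (M ⟶ N) →ₗ[k] (∀ p, (M.obj p →ₗ[k] N.obj p)) :=
    { toFun := fun (f : M ⟶ N) p => ModuleCat.Hom.hom (f.app p)
      map_add' := fun f g => rfl
      map_smul' := fun c f => rfl }
  apply FiniteDimensional.of_injective L
  intro f g h
  apply rep_ext
  intro p x
  exact LinearMap.congr_fun (congrFun h p) x

theorem PFD_kC (S : Cvx J) : PFD (kC k S) := by
  intro p
  show FiniteDimensional k (cell k S.1 p)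
  infer_instance

theorem PFD_X : PFD G.X := by
  intro p
  haveI : ∀ S : Cvx J, FiniteDimensional k ((kC k S).obj p) := fun S => PFD_kC S p
  let L : G.X.obj p →ₗ[k] (∀ S : Cvx J, (kC k S).obj p) :=
    { toFun := fun x S => ((G.p S).app p).hom x
      map_add' := fun x y => by
        funext S
        exact map_add _ _ _
      map_smul' := fun c x => by
        funext S
        exact map_smul _ _ _ }
  apply FiniteDimensional.of_injective L
  intro x y h
  have h1 : ∀ z : G.X.obj p, z = ∑ S, ((G.i S).app p).hom (((G.p S).app p).hom z) := by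
    intro z
    have h2 := congrArg (fun f : G.X ⟶ G.X => (f.app p).hom z) G.tot
    have h3 : ((∑ S, G.p S ≫ G.i S : G.X ⟶ G.X).app p).hom z =
        ∑ S, ((G.i S).app p).hom (((G.p S).app p).hom z) := by
      rw [NatTrans.app_sum, ModuleCat.hom_sum, LinearMap.sum_apply]
      rfl
    exact h2.symm.trans h3
  rw [h1 x, h1 y]
  apply Finset.sum_congr rfl
  intro S _
  exact congrArg _ (congrFun h S)

instance tower (Y : Rep k J) : IsScalarTower k (Gm G) (G.X ⟶ Y) := by
  constructor
  intro c r f
  show (c • r.unop) ≫ f = c • (r.unop ≫ f)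
  exact Linear.smul_comp _ _ _ _ _ _

theorem noeth {Y : Rep k J} (hY : PFD Y) : IsNoetherian (Gm G) (G.X ⟶ Y) := by
  haveI := fd_hom (PFD_X G) hY
  haveI : IsNoetherian k (G.X ⟶ Y) := inferInstance
  exact isNoetherian_of_tower k inferInstance

theorem artin {Y : Rep k J} (hY : PFD Y) : IsArtinian (Gm G) (G.X ⟶ Y) := by
  haveI := fd_hom (PFD_X G) hY
  haveI : IsArtinian k (G.X ⟶ Y) := inferInstance
  exact isArtinian_of_tower k inferInstance

end Pool.Agent.X317.SR
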