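import Mathlib
import Pool.Agent.X317.SR.Gam2

/-!
# All modules of finite length have finite resolutions (2)
-/

set_option autoImplicit false
set_option linter.all false

namespace Pool.Agent.X317.SR

open CategoryTheory CategoryTheory.Limits
open Classical ZeroObject

universe u

variable {k : Type u} [Field k] {J : Type u} [PartialOrder J] [Finite J]
variable (G : Gen k J)

/-- the idempotents -/
noncomputable def ee (S : Cvx J) : Gm G := rr G (G.p S ≫ G.i S)

/-- vanishing on small sets -/
def Van (n : ℕ) (F : Type u) [AddCommGroup F] [Module (Gm G) F] : Prop :=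
  ∀ S : Cvx J, S.1.ncard < n → ∀ x : F, ee G S • x = 0

theorem ee_idem (S : Cvx J) : ee G S * ee G S = ee G S := by
  unfold ee
  rw [← rr_comp]
  congr 1
  rw [Category.assoc, reassoc_of% (G.ip S)]

theorem ee_sum (F : Type u) [AddCommGroup F] [Module (Gm G) F] (x : F) :
    ∑ S, ee G S • x = x := by
  rw [← Finset.sum_smul]
  unfold ee
  rw [← rr_sum, G.tot, rr_one, one_smul]

theorem Van_sub {n : ℕ} {F : Type u} [AddCommGroup F] [Module (Gm G) F] (h : Van G n F)
    (N : Submodule (Gm G) F) : Van G n N := by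
  intro S hS x
  apply Subtype.ext
  exact h S hS x.1

theorem Van_quot {n : ℕ} {F : Type u} [AddCommGroup F] [Module (Gm G) F] (h : Van G n F)
    (N : Submodule (Gm G) F) : Van G n (F ⧸ N) := by
  intro S hS x
  obtain ⟨y, rfl⟩ := Submodule.mkQ_surjective N x
  rw [← map_smul, h S hS y, map_zero]

/-- the map out of a representable module -/
noncomputable def hx (U : Cvx J) {F : Type u} [AddCommGroup F] [Module (Gm G) F] (x : F) :
    (G.X ⟶ kC k U) →ₗ[Gm G] F where
  toFun f := rr G (f ≫ G.i U) • x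
  map_add' := by
    intro f g
    rw [Preadditive.add_comp, rr_add, add_smul]
  map_smul' := by
    intro r f
    rw [RingHom.id_apply]
    have h5 : rr G ((r • f) ≫ G.i U) = r * rr G (f ≫ G.i U) := by
      rw [smul_unop, Category.assoc]
      rfl
    rw [h5, mul_smul]

theorem hx_apply (U : Cvx J) {F : Type u} [AddCommGroup F] [Module (Gm G) F] (x : F)
    (f : G.X ⟶ kC k U) : hx G U x f = rr G (f ≫ G.i U) • x := rfl

/-- proper upsets -/
noncomputable def pu (U : Cvx J) : Finset (Set J) :=
  haveI : Fintype (Set J) := Fintype.ofFinite _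
  Finset.univ.filter (fun V => Up U.1 V ∧ V ≠ U.1)

theorem mem_pu {U : Cvx J} {V : Set J} : V ∈ pu U ↔ Up U.1 V ∧ V ≠ U.1 := by
  unfold pu
  simp

theorem hx_kill {n : ℕ} {U : Cvx J} (hU : U.1.ncard = n) {F : Type u} [AddCommGroup F] [Module (Gm G) F]
    (hF : Van G n F) (x : F) :
    (pu U).sup (fun V => Av G V) ≤ LinearMap.ker (hx G U x) := by
  apply Finset.sup_le
  intro V hV f hf
  obtain ⟨hV1, hV2⟩ := mem_pu.1 hV
  show hx G U x f = 0
  have h1 : f = cor hV1 f hf ≫ inc hV1 := (cor_inc hV1 f hf).symm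
  have hn : V.ncard < n := by
    rw [← hU]
    exact Set.ncard_lt_ncard (lt_of_le_of_ne hV1.1 hV2) (Set.toFinite _)
  rw [hx_apply]
  let V' : Cvx J := ⟨V, Up_conn U.2 hV1⟩
  let f' : G.X ⟶ kC k V' := cor hV1 f hf
  let j : kC k V' ⟶ kC k U := inc hV1
  have h2 : f = f' ≫ j := h1
  have h3 : f ≫ G.i U = (f' ≫ G.i V') ≫ (G.p V' ≫ G.i V') ≫ (G.p V' ≫ j ≫ G.i U) := by
    rw [h2]
    simp only [Category.assoc]
    rw [reassoc_of% (G.ip V'), reassoc_of% (G.ip V')]
  rw [h3, rr_comp, rr_comp, mul_smul, mul_smul]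
  have h4 := hF V' hn (rr G (G.p V' ≫ j ≫ G.i U) • x)
  have h5 : rr G (G.p V' ≫ G.i V') = ee G V' := rfl
  rw [h5, h4, smul_zero]

theorem Van_ker {n : ℕ} {U : Cvx J} (hU : U.1.ncard = n) {F : Type u} [AddCommGroup F] [Module (Gm G) F]
    (x : F) (hx0 : ee G U • x = x) (hxn : x ≠ 0) :
    Van G (n + 1) (LinearMap.ker (hx G U x) ⧸
      ((pu U).sup (fun V => Av G V)).comap (LinearMap.ker (hx G U x)).subtype) := by
  intro S hS y
  obtain ⟨f, rfl⟩ := Submodule.mkQ_surjective _ y
  rw [← map_smul]
  rw [← LinearMap.mem_ker, Submodule.ker_mkQ]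
  show (ee G S • f.1 : G.X ⟶ kC k U) ∈ (pu U).sup (fun V => Av G V)
  have h1 : (ee G S • f.1 : G.X ⟶ kC k U) = G.p S ≫ (G.i S ≫ f.1) := by
    show (G.p S ≫ G.i S) ≫ f.1 = _
    rw [Category.assoc]
  rw [h1]
  set g : kC k S ⟶ kC k U := G.i S ≫ f.1 with hg
  let V : Set J := {p | co g p ≠ 0}
  have hV : Up U.1 V := by
    constructor
    · intro p hp
      exact (co_ne g hp).2
    · intro p hp q hq hpq
      show co g q ≠ 0
      rw [co_map g hpq (co_ne g hp).1 hq]
      exact hp
  by_cases hVU : V = U.1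
  · exfalso
    have h2 : U.1 ⊆ S.1 := by
      intro p hp
      rw [← hVU] at hp
      exact (co_ne g hp).1
    have h3 : S.1 = U.1 := by
      apply (Set.eq_of_subset_of_ncard_le h2 ?_ (Set.toFinite _)).symm
      omega
    have h4 : S = U := Subtype.ext h3
    subst h4
    have hne : ∀ p, p ∈ S.1 → co g p ≠ 0 := by
      intro p hp
      rw [← hVU] at hp
      exact hp
    let g' : kC k S ⟶ kC k S := mkC S.1 S.2 S.1 S.2 (fun p => (co g p)⁻¹)
      (fun p hp => by
        have h5 : co g p = 0 := by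
          by_contra h
          exact hp (co_ne g h)
        rw [h5, inv_zero])
      (fun p q hpq hp hq => by rw [co_map g hpq hp hq])
    have h6 : g' ≫ g = 𝟙 _ := by
      apply co_ext
      intro p
      by_cases hp : p ∈ S.1
      · rw [co_comp, co_id hp, mkC_co, inv_mul_cancel₀ (hne p hp)]
      · rw [co_zero_left _ hp, co_zero_left _ hp]
    have h7 : hx G S x (G.p S ≫ g) = 0 := by
      rw [← h1, map_smul]
      have h8 : hx G S x f.1 = 0 := f.2
      rw [h8, smul_zero]
    rw [hx_apply] at h7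
    have h9 : rr G (G.p S ≫ g' ≫ G.i S) • (rr G ((G.p S ≫ g) ≫ G.i S) • x) = x := by
      rw [← mul_smul, ← rr_comp]
      have h10 : (G.p S ≫ g' ≫ G.i S) ≫ (G.p S ≫ g) ≫ G.i S = G.p S ≫ G.i S := by
        simp only [Category.assoc]
        rw [reassoc_of% (G.ip S), reassoc_of% h6]
      rw [h10]
      exact hx0
    rw [h7, smul_zero] at h9
    exact hxn h9.symm
  · have h2 : G.p S ≫ g ∈ Av G V := by
      apply comp_mem_Av
      intro p hp
      by_contra h
      exact hp h
    exact (Finset.le_sup (f := fun V => (Av G V : Submodule (Gm G) (G.X ⟶ kC k U)))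
      (mem_pu.2 ⟨hV, hVU⟩)) h2

theorem FF_simple (n : ℕ)
    (ih : ∀ (F : Type u) [AddCommGroup F] [Module (Gm G) F], IsFiniteLength (Gm G) F →
      Van G (n + 1) F → FF (PcG G) F)
    (F : Type u) [AddCommGroup F] [Module (Gm G) F] (hs : IsSimpleModule (Gm G) F) (hF : Van G n F) :
    FF (PcG G) F := by
  by_cases h1 : Van G (n + 1) F
  · apply ih F _ h1
    rw [isFiniteLength_iff_isNoetherian_isArtinian]
    exact ⟨inferInstance, inferInstance⟩
  · unfold Van at h1
    push Not at h1
    obtain ⟨U, hU1, x0, hx0⟩ := h1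
    have hU : U.1.ncard = n := by
      by_contra hne
      exact hx0 (hF U (by omega) x0)
    set x := ee G U • x0 with hxdef
    have hxe : ee G U • x = x := by
      rw [hxdef, ← mul_smul, ee_idem]
    have hsurj : Function.Surjective (hx G U x) := by
      apply LinearMap.surjective_of_ne_zero
      intro h0
      have h2 : hx G U x (G.p U) = x := hxe
      rw [h0] at h2
      exact hx0 h2.symm
    have hPc : PcG G (G.X ⟶ kC k U) := ⟨kC k U, SumC_one U, ⟨LinearEquiv.refl _ _⟩⟩
    refine FF_coker (good G) (hx G U x) hsurj ?_ ⟨1, FR_of_Pc (good G) _ hPc⟩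
    refine FF_sub (good G) (((pu U).sup (fun V => Av G V)).comap (LinearMap.ker (hx G U x)).subtype) ?_ ?_
    · refine FF_equiv (Submodule.comapSubtypeEquivOfLe (hx_kill G hU hF x)).symm ?_
      exact FF_sup_Av G (pu U) (fun V => V) (fun V hV => (mem_pu.1 hV).1)
    · apply ih
      · rw [isFiniteLength_iff_isNoetherian_isArtinian]
        haveI := noeth G (PFD_kC (k := k) U)
        haveI := artin G (PFD_kC (k := k) U)
        exact ⟨inferInstance, inferInstance⟩
      · exact Van_ker G hU x hxe hx0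

theorem FF_len (n : ℕ)
    (ih : ∀ (F : Type u) [AddCommGroup F] [Module (Gm G) F], IsFiniteLength (Gm G) F →
      Van G (n + 1) F → FF (PcG G) F)
    (F : Type u) [AddCommGroup F] [Module (Gm G) F] (hl : IsFiniteLength (Gm G) F) :
    Van G n F → FF (PcG G) F := by
  induction hl with
  | of_subsingleton =>
    intro _
    apply FF_zero
    assumption
  | @of_simple_quotient M _ _ N hN hl ih2 =>
    intro hV
    exact FF_sub (good G) N (ih2 (Van_sub G hV N)) (FF_simple G n ih _ hN (Van_quot G hV N))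

theorem FF_all_aux (d : ℕ) : ∀ n, n + d = Nat.card J + 1 →
    ∀ (F : Type u) [AddCommGroup F] [Module (Gm G) F], IsFiniteLength (Gm G) F →
      Van G n F → FF (PcG G) F := by
  induction d with
  | zero =>
    intro n hn F _ _ _ hV
    apply FF_zero
    constructor
    intro a b
    have h1 : ∀ x : F, x = 0 := by
      intro x
      rw [← ee_sum G F x]
      apply Finset.sum_eq_zero
      intro S _
      apply hV
      have h2 := Set.ncard_le_card S.1
      omega
    rw [h1 a, h1 b]
  | succ d ih =>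
    intro n hn F _ _ hl hV
    exact FF_len G n (fun F _ _ hl' hV' => ih (n + 1) (by omega) F hl' hV') F hl hV

theorem FF_all (F : Type u) [AddCommGroup F] [Module (Gm G) F] (hl : IsFiniteLength (Gm G) F) :
    FF (PcG G) F :=
  FF_all_aux G (Nat.card J + 1) 0 (by omega) F hl (fun S hS x => absurd hS (Nat.not_lt_zero _))

theorem FF_rep (Y : Rep k J) (hY : PFD Y) : FF (PcG G) (G.X ⟶ Y) := by
  apply FF_all
  rw [isFiniteLength_iff_isNoetherian_isArtinian]
  exact ⟨noeth G hY, artin G hY⟩

end Pool.Agent.X317.SR
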