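import Mathlib
import Pool.Agent.X317.SR.Gam3

/-!
# Resolutions by sums of convex representations over a finite poset
-/

set_option autoImplicit false
set_option linter.all false

namespace Pool.Agent.X317.SR

open CategoryTheory CategoryTheory.Limits
open Classical ZeroObject

universe u

/-- elementwise short exactness -/
structure SES {k : Type u} [Field k] {P : Type u} [PartialOrder P] {A B C : Rep k P}
    (i : A ⟶ B) (p : B ⟶ C) : Prop where
  inj : ∀ x, Function.Injective (i.app x).hom
  surj : ∀ x, Function.Surjective (p.app x).hom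
  ip : ∀ x (a : A.obj x), (p.app x).hom ((i.app x).hom a) = 0
  ex : ∀ x (b : B.obj x), (p.app x).hom b = 0 → ∃ a, (i.app x).hom a = b

variable {k : Type u} [Field k] {J : Type u} [PartialOrder J] [Finite J]

/-- a resolution by convex representations, exact under all `Hom(k_S, -)` -/
def Res1 : ℕ → Rep k J → Prop
  | 0, M => ∀ x (m : M.obj x), m = 0
  | n + 1, M => ∃ (Y K : Rep k J) (i : K ⟶ Y) (p : Y ⟶ M), SumC Y ∧ PFD K ∧ SES i p ∧
      (∀ (S : Cvx J) (g : kC k S ⟶ M), ∃ g' : kC k S ⟶ Y, g' ≫ p = g) ∧ Res1 n K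

/-- Yoneda -/
noncomputable def yon {P : Type u} [PartialOrder P] {M : Rep k P} (p : P) (x : M.obj p) :
    kS k (Set.Ici p) Set.ordConnected_Ici ⟶ M :=
  mkH (Set.Ici p) Set.ordConnected_Ici M
    (fun q => if h : p ≤ q then (M.map (homOfLE h)).hom x else 0)
    (fun q hq => by
      have hq' : ¬ p ≤ q := hq
      exact dif_neg hq')
    (fun q r f hq => by
      have hq' : p ≤ q := hq
      have hr : p ≤ r := hq'.trans (leOfHom f)
      rw [dif_pos hq', dif_pos hr]
      exact map_map' M _ _ _ x)

theorem yon_el {P : Type u} [PartialOrder P] {M : Rep k P} (p : P) (x : M.obj p) :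
    el (yon p x) p = x := by
  refine (mkH_el _ _ _ p).trans ?_
  show (if h : p ≤ p then (M.map (homOfLE h)).hom x else 0) = x
  rw [dif_pos le_rfl]
  exact map_id' M _ x

theorem PFD_SumC {Y : Rep k J} (hY : SumC Y) : PFD Y := by
  obtain ⟨I, _, S, a, b, h1, h2, h3⟩ := hY
  intro p
  haveI : ∀ i, FiniteDimensional k ((kC k (S i)).obj p) := fun i => PFD_kC (S i) p
  let L : Y.obj p →ₗ[k] (∀ i, (kC k (S i)).obj p) :=
    { toFun := fun x i => ((b i).app p).hom x
      map_add' := fun x y => by
        funext i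
        exact map_add _ _ _
      map_smul' := fun c x => by
        funext i
        exact map_smul _ _ _ }
  apply FiniteDimensional.of_injective L
  intro x y h
  have h1 : ∀ z : Y.obj p, z = ∑ i, ((a i).app p).hom (((b i).app p).hom z) := by
    intro z
    have h2 := congrArg (fun f : Y ⟶ Y => (f.app p).hom z) h3
    have h4 : ((∑ i, b i ≫ a i : Y ⟶ Y).app p).hom z =
        ∑ i, ((a i).app p).hom (((b i).app p).hom z) := by
      rw [NatTrans.app_sum, ModuleCat.hom_sum, LinearMap.sum_apply]
      rfl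
    exact h2.symm.trans h4
  rw [h1 x, h1 y]
  apply Finset.sum_congr rfl
  intro i _
  exact congrArg _ (congrFun h i)

/-- the kernel representation -/
def KR {P : Type u} [PartialOrder P] {Y M : Rep k P} (p : Y ⟶ M) : Rep k P where
  obj x := ModuleCat.of k (LinearMap.ker (p.app x).hom)
  map {x y} f := ModuleCat.ofHom
    (LinearMap.restrict (Y.map f).hom (fun z hz => by
      show (p.app y).hom ((Y.map f).hom z) = 0
      rw [nat_ap p f z]
      have h : (p.app x).hom z = 0 := hz
      rw [h, map_zero]))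
  map_id x := by
    apply ModuleCat.hom_ext
    apply LinearMap.ext
    intro z
    apply Subtype.ext
    exact map_id' Y _ _
  map_comp {x y z} f g := by
    apply ModuleCat.hom_ext
    apply LinearMap.ext
    intro w
    apply Subtype.ext
    exact (map_map' Y f g (f ≫ g) _).symm

/-- its inclusion -/
def KRi {P : Type u} [PartialOrder P] {Y M : Rep k P} (p : Y ⟶ M) : KR p ⟶ Y where
  app x := ModuleCat.ofHom (LinearMap.ker (p.app x).hom).subtype
  naturality x y f := by
    apply ModuleCat.hom_ext
    apply LinearMap.ext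
    intro z
    rfl

theorem KRi_comp {P : Type u} [PartialOrder P] {Y M : Rep k P} (p : Y ⟶ M) : KRi p ≫ p = 0 := by
  apply rep_ext
  intro x z
  exact z.2

/-- lifts to the kernel -/
def KRl {P : Type u} [PartialOrder P] {Y M Z : Rep k P} (p : Y ⟶ M) (f : Z ⟶ Y) (h : f ≫ p = 0) :
    Z ⟶ KR p where
  app x := ModuleCat.ofHom (LinearMap.codRestrict (LinearMap.ker (p.app x).hom) (f.app x).hom (fun z =>
    congrArg (fun g : Z ⟶ M => (g.app x).hom z) h))
  naturality x y g := by
    apply ModuleCat.hom_ext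
    apply LinearMap.ext
    intro z
    apply Subtype.ext
    exact nat_ap f g z

theorem KRl_comp {P : Type u} [PartialOrder P] {Y M Z : Rep k P} (p : Y ⟶ M) (f : Z ⟶ Y) (h : f ≫ p = 0) :
    KRl p f h ≫ KRi p = f := rfl

theorem KRi_mono {P : Type u} [PartialOrder P] {Y M Z : Rep k P} (p : Y ⟶ M) (f g : Z ⟶ KR p)
    (h : f ≫ KRi p = g ≫ KRi p) : f = g := by
  apply rep_ext
  intro x z
  apply Subtype.ext
  exact congrArg (fun g : Z ⟶ Y => (g.app x).hom z) h

theorem KR_ses {P : Type u} [PartialOrder P] {Y M : Rep k P} (p : Y ⟶ M)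
    (hp : ∀ x, Function.Surjective (p.app x).hom) : SES (KRi p) p where
  inj := fun x a b h => Subtype.ext h
  surj := hp
  ip := fun x a => a.2
  ex := fun x b hb => ⟨⟨b, hb⟩, rfl⟩

theorem KR_pfd {Y M : Rep k J} (p : Y ⟶ M) (hY : PFD Y) : PFD (KR p) := by
  intro x
  haveI := hY x
  show FiniteDimensional k (LinearMap.ker (p.app x).hom)
  infer_instance

variable (G : Gen k J)

/-- Hom into a kernel -/
def homKR {Y M : Rep k J} (p : Y ⟶ M) (H : (G.X ⟶ Y) →ₗ[Gm G] (G.X ⟶ M)) (hH : ∀ f, H f = f ≫ p) :
    LinearMap.ker H ≃ₗ[Gm G] (G.X ⟶ KR p) where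
  toFun f := KRl p f.1 ((hH f.1).symm.trans f.2)
  map_add' f g := rfl
  map_smul' r f := rfl
  invFun f := ⟨f ≫ KRi p, by
    show H (f ≫ KRi p) = 0
    rw [hH, Category.assoc, KRi_comp, comp_zero]⟩
  left_inv f := rfl
  right_inv f := rfl

theorem FR_Res (n : ℕ) : ∀ (M : Rep k J), FR (PcG G) n (G.X ⟶ M) → Res1 n M := by
  induction n with
  | zero =>
    intro M h x m
    haveI : Subsingleton (G.X ⟶ M) := h
    let S : Cvx J := ⟨Set.Ici x, Set.ordConnected_Ici⟩
    have h1 : G.p S ≫ (yon x m : kC k S ⟶ M) = 0 := Subsingleton.elim _ _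
    have h2 : (yon x m : kC k S ⟶ M) = 0 := by
      have h3 : G.i S ≫ G.p S ≫ (yon x m : kC k S ⟶ M) = 0 := by rw [h1, comp_zero]
      rw [reassoc_of% (G.ip S)] at h3
      exact h3
    rw [← yon_el x m]
    have h4 : el (yon x m : kC k S ⟶ M) x = el (0 : kC k S ⟶ M) x := by rw [h2]
    exact h4
  | succ n ih =>
    intro M h
    obtain ⟨P, i1, i2, f, ⟨Y, hY, ⟨e⟩⟩, hf, hk⟩ := h
    have hYs := hY
    obtain ⟨I, _, S, a, b, h1, h2, htot⟩ := hY
    let H : (G.X ⟶ Y) →ₗ[Gm G] (G.X ⟶ M) := f.comp e.toLinearMap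
    let p : Y ⟶ M := ∑ i, b i ≫ G.i (S i) ≫ H (G.p (S i) ≫ a i)
    have hH : ∀ g, H g = g ≫ p := by
      intro g
      rw [key_lin G S a b htot H g]
      show _ = g ≫ (∑ i, b i ≫ G.i (S i) ≫ H (G.p (S i) ≫ a i))
      rw [Preadditive.comp_sum]
      apply Finset.sum_congr rfl
      intro i _
      rw [rr_smul]
      simp only [Category.assoc]
    have hHs : Function.Surjective H := hf.comp e.surjective
    have hsp : ∀ (S : Cvx J) (g : kC k S ⟶ M), ∃ g' : kC k S ⟶ Y, g' ≫ p = g := by
      intro S g
      obtain ⟨g', hg'⟩ := hHs (G.p S ≫ g)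
      refine ⟨G.i S ≫ g', ?_⟩
      rw [Category.assoc, ← hH, hg', reassoc_of% (G.ip S)]
    have hsurj : ∀ x, Function.Surjective (p.app x).hom := by
      intro x m
      let S : Cvx J := ⟨Set.Ici x, Set.ordConnected_Ici⟩
      obtain ⟨g', hg'⟩ := hsp S (yon x m)
      refine ⟨el g' x, ?_⟩
      rw [← el_comp, hg']
      exact yon_el x m
    refine ⟨Y, KR p, KRi p, p, hYs, KR_pfd p (PFD_SumC hYs), KR_ses p hsurj, hsp, ?_⟩
    apply ih
    refine FR_equiv n ?_ hk
    have e1 : LinearMap.ker f ≃ₗ[Gm G] LinearMap.ker H :=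
      { toFun := fun x => ⟨e.symm x.1, by
          show f (e (e.symm x.1)) = 0
          rw [LinearEquiv.apply_symm_apply]
          exact x.2⟩
        map_add' := fun x y => by
          apply Subtype.ext
          exact map_add e.symm x.1 y.1
        map_smul' := fun r x => by
          apply Subtype.ext
          exact map_smul e.symm r x.1
        invFun := fun x => ⟨e x.1, x.2⟩
        left_inv := fun x => by
          apply Subtype.ext
          exact e.apply_symm_apply x.1
        right_inv := fun x => by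
          apply Subtype.ext
          exact e.symm_apply_apply x.1 }
    exact e1.trans (homKR G p H hH)

/-- every representation of a finite poset has a finite resolution -/
theorem exists_Res (M : Rep k J) (hM : PFD M) : ∃ n, Res1 n M := by
  obtain ⟨G⟩ := exists_gen k J
  obtain ⟨n, hn⟩ := FF_rep G M hM
  exact ⟨n, FR_Res G n M hn⟩

/-- post-composition -/
def pc {Y M : Rep k J} (p : Y ⟶ M) : (G.X ⟶ Y) →ₗ[Gm G] (G.X ⟶ M) where
  toFun f := f ≫ p
  map_add' f g := Preadditive.add_comp _ _ _ _ _ _
  map_smul' r f := Category.assoc _ _ _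

theorem lift_X {Y M : Rep k J} (p : Y ⟶ M)
    (h : ∀ (S : Cvx J) (g : kC k S ⟶ M), ∃ g' : kC k S ⟶ Y, g' ≫ p = g) (f : G.X ⟶ M) :
    ∃ f' : G.X ⟶ Y, f' ≫ p = f := by
  choose g' hg' using fun S : Cvx J => h S (G.i S ≫ f)
  refine ⟨∑ S, G.p S ≫ g' S, ?_⟩
  rw [Preadditive.sum_comp]
  have h1 : ∀ S : Cvx J, (G.p S ≫ g' S) ≫ p = (G.p S ≫ G.i S) ≫ f := by
    intro S
    rw [Category.assoc, hg', Category.assoc]
  rw [Finset.sum_congr rfl (fun S _ => h1 S), ← Preadditive.sum_comp, G.tot, Category.id_comp]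

theorem Res_FR (n : ℕ) : ∀ (M : Rep k J), Res1 n M → FR (PcG G) n (G.X ⟶ M) := by
  induction n with
  | zero =>
    intro M h
    show Subsingleton (G.X ⟶ M)
    constructor
    intro f g
    apply rep_ext
    intro p x
    rw [h p ((f.app p).hom x), h p ((g.app p).hom x)]
  | succ n ih =>
    intro M h
    obtain ⟨Y, K, i, p, hY, hK, hses, hsp, hr⟩ := h
    refine ⟨(G.X ⟶ Y), inferInstance, inferInstance, pc G p, ⟨Y, hY, ⟨LinearEquiv.refl _ _⟩⟩,
      fun f => lift_X G p hsp f, ?_⟩
    refine FR_equiv n ?_ (ih K hr)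
    have hi : ∀ (f : G.X ⟶ Y), f ≫ p = 0 → ∃ g : G.X ⟶ K, g ≫ i = f := by
      intro f hf
      have h1 : ∀ x (z : G.X.obj x), ∃ a, (i.app x).hom a = (f.app x).hom z := by
        intro x z
        exact hses.ex x _ (congrArg (fun g : G.X ⟶ M => (g.app x).hom z) hf)
      choose a ha using h1
      let L : ∀ x, G.X.obj x →ₗ[k] K.obj x := fun x =>
        { toFun := a x
          map_add' := by
            intro z w
            apply hses.inj x
            rw [map_add, ha, ha, ha, map_add]
          map_smul' := by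
            intro c z
            apply hses.inj x
            rw [ha, map_smul, map_smul, ha]
            rfl }
      refine ⟨{ app := fun x => ModuleCat.ofHom (L x), naturality := ?_ }, ?_⟩
      · intro x y g
        apply ModuleCat.hom_ext
        apply LinearMap.ext
        intro z
        apply hses.inj y
        show (i.app y).hom (a y ((G.X.map g).hom z)) = (i.app y).hom ((K.map g).hom (a x z))
        rw [ha, nat_ap i g, ha, nat_ap f g]
      · apply rep_ext
        intro x z
        exact ha x z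
    let E : (G.X ⟶ K) →ₗ[Gm G] LinearMap.ker (pc G p) :=
      { toFun := fun g => ⟨g ≫ i, by
          apply rep_ext
          intro x z
          exact hses.ip x _⟩
        map_add' := fun f g => by
          apply Subtype.ext
          exact Preadditive.add_comp _ _ _ _ _ _
        map_smul' := fun r f => by
          apply Subtype.ext
          exact Category.assoc _ _ _ }
    refine LinearEquiv.ofBijective E ⟨?_, ?_⟩
    · intro f g hfg
      have h2 : f ≫ i = g ≫ i := congrArg Subtype.val hfg
      apply rep_ext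
      intro x z
      apply hses.inj x
      exact congrArg (fun g : G.X ⟶ Y => (g.app x).hom z) h2
    · rintro ⟨f, hf⟩
      obtain ⟨g, hg⟩ := hi f hf
      exact ⟨g, Subtype.ext hg⟩

end Pool.Agent.X317.SR
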