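import Mathlib
import Pool.Agent.X317.SR.Res

/-!
# Transport along a floor function
-/

set_option autoImplicit false
set_option linter.all false

namespace Pool.Agent.X317.SR

open CategoryTheory CategoryTheory.Limits
open Classical ZeroObject

universe u

variable {k : Type u} [Field k] {J : Type u} [PartialOrder J] {P : Type u} [PartialOrder P]

/-- value extended by zero -/
def xo (N : Rep k J) : Option J → ModuleCat.{u} k
  | none => ModuleCat.of k PUnit
  | some j => N.obj j

/-- the order relation on `Option J` -/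
def Rel (a b : Option J) : Prop := ∀ i, a = some i → ∃ j, b = some j ∧ i ≤ j

theorem Rel.trans' {a b c : Option J} (h : Rel a b) (h' : Rel b c) : Rel a c := by
  intro i hi
  obtain ⟨j, hj, hij⟩ := h i hi
  obtain ⟨l, hl, hjl⟩ := h' j hj
  exact ⟨l, hl, hij.trans hjl⟩

theorem Rel.some_le {i j : J} (h : Rel (some i) (some j)) : i ≤ j := by
  obtain ⟨l, hl, hil⟩ := h i rfl
  rw [Option.some.inj hl]
  exact hil

theorem Rel.refl' (a : Option J) : Rel a a := fun i hi => ⟨i, hi, le_rfl⟩

theorem Rel.of_eq {a b : Option J} (h : a = b) : Rel a b := fun i hi => ⟨i, h ▸ hi, le_rfl⟩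

/-- transition maps -/
noncomputable def xm (N : Rep k J) : ∀ (a b : Option J), Rel a b → (xo N a ⟶ xo N b)
  | none, b, _ => 0
  | some i, none, _ => 0
  | some i, some j, h => N.map (homOfLE h.some_le)

theorem xm_id (N : Rep k J) (a : Option J) (h : Rel a a) (z : xo N a) : (xm N a a h).hom z = z := by
  cases a with
  | none => rfl
  | some i => exact map_id' N _ z

theorem xm_comp (N : Rep k J) (a b c : Option J) (h : Rel a b) (h' : Rel b c) (h'' : Rel a c)
    (z : xo N a) : (xm N b c h').hom ((xm N a b h).hom z) = (xm N a c h'').hom z := by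
  cases a with
  | none =>
    show (xm N b c h').hom 0 = 0
    rw [map_zero]
  | some i =>
    cases b with
    | none =>
      obtain ⟨j, hj, _⟩ := h i rfl
      exact absurd hj (by simp)
    | some j =>
      cases c with
      | none =>
        obtain ⟨l, hl, _⟩ := h' j rfl
        exact absurd hl (by simp)
      | some l => exact map_map' N _ _ _ z

/-- induced maps -/
noncomputable def x1 {M N : Rep k J} (f : M ⟶ N) : ∀ a : Option J, xo M a ⟶ xo N a
  | none => 0
  | some j => f.app j

theorem x1_nat {M N : Rep k J} (f : M ⟶ N) (a b : Option J) (h : Rel a b) (z : xo M a) :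
    (x1 f b).hom ((xm M a b h).hom z) = (xm N a b h).hom ((x1 f a).hom z) := by
  cases a with
  | none =>
    show (x1 f b).hom 0 = 0
    rw [map_zero]
  | some i =>
    cases b with
    | none =>
      obtain ⟨j, hj, _⟩ := h i rfl
      exact absurd hj (by simp)
    | some j => exact nat_ap f _ z

variable (J P)

/-- floor data -/
structure Flo where
  φ : J → P
  ψ : P → Option J
  gc : ∀ (j : J) (p : P), Rel (some j) (ψ p) ↔ φ j ≤ p
  emb : ∀ j, ψ (φ j) = some j

variable {J P}
variable (F : Flo J P)

theorem Flo.mono {p q : P} (h : p ≤ q) : Rel (F.ψ p) (F.ψ q) := by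
  intro i hi
  have h1 : Rel (some i) (F.ψ p) := by
    rw [hi]
    exact Rel.refl' _
  have h2 : Rel (some i) (F.ψ q) := (F.gc i q).2 (((F.gc i p).1 h1).trans h)
  exact h2 i rfl

theorem Flo.φmono {i j : J} (h : i ≤ j) : F.φ i ≤ F.φ j := by
  apply (F.gc i (F.φ j)).1
  rw [F.emb]
  intro l hl
  exact ⟨j, rfl, (Option.some.inj hl) ▸ h⟩

theorem Flo.le_of_eq {j : J} {p : P} (h : F.ψ p = some j) : F.φ j ≤ p := by
  apply (F.gc j p).1
  rw [h]
  exact Rel.refl' _

/-- the transported representation -/
noncomputable def Ph (N : Rep k J) : Rep k P where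
  obj p := xo N (F.ψ p)
  map {p q} h := xm N (F.ψ p) (F.ψ q) (F.mono (leOfHom h))
  map_id p := by
    apply ModuleCat.hom_ext
    apply LinearMap.ext
    intro z
    exact xm_id N _ _ z
  map_comp {p q r} f g := by
    apply ModuleCat.hom_ext
    apply LinearMap.ext
    intro z
    exact (xm_comp N _ _ _ _ _ _ z).symm

/-- transported maps -/
noncomputable def Phm {M N : Rep k J} (f : M ⟶ N) : Ph F M ⟶ Ph F N where
  app p := x1 f (F.ψ p)
  naturality p q h := by
    apply ModuleCat.hom_ext
    apply LinearMap.ext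
    intro z
    exact x1_nat f _ _ _ z

/-- the value at `j` of an element over `p` with `ψ p = j` -/
noncomputable def val (N : Rep k J) {p : P} {j : J} (h : F.ψ p = some j) (z : (Ph F N).obj p) : N.obj j :=
  (xm N (F.ψ p) (some j) (Rel.of_eq h)).hom z

theorem none_zero (N : Rep k J) {p : P} (h : F.ψ p = none) (z : (Ph F N).obj p) : z = 0 := by
  have key : ∀ (a : Option J), a = none → ∀ z : xo N a, z = 0 := by
    rintro a rfl z
    rfl
  exact key (F.ψ p) h z

theorem val_inj (N : Rep k J) {p : P} {j : J} (h : F.ψ p = some j) {z w : (Ph F N).obj p}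
    (hzw : val F N h z = val F N h w) : z = w := by
  have key : ∀ (a : Option J) (h : a = some j) (z w : xo N a),
      (xm N a (some j) (Rel.of_eq h)).hom z = (xm N a (some j) (Rel.of_eq h)).hom w → z = w := by
    rintro a rfl z w h
    rw [xm_id, xm_id] at h
    exact h
  exact key (F.ψ p) h z w hzw

theorem val_surj (N : Rep k J) {p : P} {j : J} (h : F.ψ p = some j) (n : N.obj j) :
    ∃ z, val F N h z = n := by
  have key : ∀ (a : Option J) (h : a = some j) (n : xo N (some j)),
      ∃ z, (xm N a (some j) (Rel.of_eq h)).hom z = n := by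
    rintro a rfl n
    exact ⟨n, xm_id N _ _ n⟩
  exact key (F.ψ p) h n

theorem val_add (N : Rep k J) {p : P} {j : J} (h : F.ψ p = some j) (z w : (Ph F N).obj p) :
    val F N h (z + w) = val F N h z + val F N h w := map_add _ _ _

theorem val_smul (N : Rep k J) {p : P} {j : J} (h : F.ψ p = some j) (c : k) (z : (Ph F N).obj p) :
    val F N h (c • z) = c • val F N h z := map_smul _ _ _

theorem val_zero (N : Rep k J) {p : P} {j : J} (h : F.ψ p = some j) :
    val F N h (0 : (Ph F N).obj p) = 0 := map_zero _

theorem val_map (N : Rep k J) {p q : P} (f : p ⟶ q) {i j : J} (hp : F.ψ p = some i)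
    (hq : F.ψ q = some j) (hij : i ⟶ j) (z : (Ph F N).obj p) :
    val F N hq (((Ph F N).map f).hom z) = (N.map hij).hom (val F N hp z) := by
  show (xm N (F.ψ q) (some j) (Rel.of_eq hq)).hom ((xm N (F.ψ p) (F.ψ q) (F.mono (leOfHom f))).hom z) =
    (xm N (some i) (some j) (fun l hl => ⟨j, rfl, (Option.some.inj hl) ▸ leOfHom hij⟩)).hom
      ((xm N (F.ψ p) (some i) (Rel.of_eq hp)).hom z)
  have e1 := xm_comp N (F.ψ p) (F.ψ q) (some j) (F.mono (leOfHom f)) (Rel.of_eq hq)
    ((F.mono (leOfHom f)).trans' (Rel.of_eq hq)) z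
  have e2 := xm_comp N (F.ψ p) (some i) (some j) (Rel.of_eq hp)
    (fun l hl => ⟨j, rfl, (Option.some.inj hl) ▸ leOfHom hij⟩)
    ((F.mono (leOfHom f)).trans' (Rel.of_eq hq)) z
  exact e1.trans e2.symm

theorem val_app {M N : Rep k J} (f : M ⟶ N) {p : P} {j : J} (h : F.ψ p = some j)
    (z : (Ph F M).obj p) : val F N h (((Phm F f).app p).hom z) = (f.app j).hom (val F M h z) := by
  exact (x1_nat f (F.ψ p) (some j) (Rel.of_eq h) z).symm

theorem Ph_le {p q : P} (h : p ≤ q) {i j : J} (hp : F.ψ p = some i) (hq : F.ψ q = some j) : i ≤ j := by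
  have h1 := F.mono h
  rw [hp, hq] at h1
  exact h1.some_le

/-- build elements -/
noncomputable def xe (N : Rep k J) (n : ∀ j, N.obj j) : ∀ a : Option J, xo N a
  | none => 0
  | some j => n j

/-- elements over `p` -/
noncomputable def pe (N : Rep k J) (n : ∀ j, N.obj j) (p : P) : (Ph F N).obj p := xe N n (F.ψ p)

theorem pe_val (N : Rep k J) (n : ∀ j, N.obj j) {p : P} {j : J} (h : F.ψ p = some j) :
    val F N h (pe F N n p) = n j := by
  have key : ∀ (a : Option J) (h : a = some j), (xm N a (some j) (Rel.of_eq h)).hom (xe N n a) = n j := by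
    rintro a rfl
    exact xm_id N _ _ _
  exact key (F.ψ p) h

theorem Phm_comp {L M N : Rep k J} (f : L ⟶ M) (g : M ⟶ N) : Phm F (f ≫ g) = Phm F f ≫ Phm F g := by
  apply rep_ext
  intro p x
  rcases hp : F.ψ p with _ | j
  · exact (none_zero F N hp _).trans (none_zero F N hp _).symm
  · apply val_inj F N hp
    rw [val_app]
    show _ = val F N hp (((Phm F g).app p).hom (((Phm F f).app p).hom x))
    rw [val_app, val_app]
    rfl

theorem Phm_add {M N : Rep k J} (f g : M ⟶ N) : Phm F (f + g) = Phm F f + Phm F g := by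
  apply rep_ext
  intro p x
  rcases hp : F.ψ p with _ | j
  · exact (none_zero F N hp _).trans (none_zero F N hp _).symm
  · apply val_inj F N hp
    rw [val_app]
    show _ = val F N hp (((Phm F f).app p).hom x + ((Phm F g).app p).hom x)
    rw [val_add, val_app, val_app]
    rfl

theorem Phm_zero {M N : Rep k J} : Phm F (0 : M ⟶ N) = 0 := by
  have h := Phm_add F (0 : M ⟶ N) 0
  rw [add_zero] at h
  exact left_eq_add.1 h

theorem Phm_id {M : Rep k J} : Phm F (𝟙 M) = 𝟙 (Ph F M) := by
  apply rep_ext
  intro p x
  rcases hp : F.ψ p with _ | j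
  · exact (none_zero F M hp _).trans (none_zero F M hp _).symm
  · apply val_inj F M hp
    rw [val_app]
    rfl

theorem Phm_sum {M N : Rep k J} {I : Type*} (s : Finset I) (f : I → (M ⟶ N)) :
    Phm F (∑ i ∈ s, f i) = ∑ i ∈ s, Phm F (f i) := by
  induction s using Finset.induction with
  | empty => exact Phm_zero F
  | insert a s ha ih => rw [Finset.sum_insert ha, Finset.sum_insert ha, Phm_add, ih]

theorem Ph_SES {A B C : Rep k J} {i : A ⟶ B} {p : B ⟶ C} (h : SES i p) : SES (Phm F i) (Phm F p) where
  inj := by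
    intro x z w hzw
    rcases hx : F.ψ x with _ | j
    · exact (none_zero F A hx _).trans (none_zero F A hx _).symm
    · apply val_inj F A hx
      apply h.inj j
      rw [← val_app, ← val_app, hzw]
  surj := by
    intro x c
    rcases hx : F.ψ x with _ | j
    · exact ⟨0, (none_zero F C hx _).trans (none_zero F C hx _).symm⟩
    · obtain ⟨b, hb⟩ := h.surj j (val F C hx c)
      obtain ⟨b', hb'⟩ := val_surj F B hx b
      refine ⟨b', ?_⟩
      apply val_inj F C hx
      rw [val_app, hb', hb]
  ip := by
    intro x a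
    rcases hx : F.ψ x with _ | j
    · exact none_zero F C hx _
    · apply val_inj F C hx
      rw [val_app, val_app, h.ip, val_zero]
  ex := by
    intro x b hb
    rcases hx : F.ψ x with _ | j
    · exact ⟨0, (none_zero F B hx _).trans (none_zero F B hx _).symm⟩
    · have h1 : (p.app j).hom (val F B hx b) = 0 := by
        rw [← val_app, hb, val_zero]
      obtain ⟨a, ha⟩ := h.ex j _ h1
      obtain ⟨a', ha'⟩ := val_surj F A hx a
      refine ⟨a', ?_⟩
      apply val_inj F B hx
      rw [val_app, ha', ha]

/-- preimage of a set -/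
def pre (S : Set J) : Set P := {p | ∃ j ∈ S, F.ψ p = some j}

theorem pre_conn {S : Set J} (hS : S.OrdConnected) : (pre F S).OrdConnected := by
  constructor
  rintro x ⟨i, hi, hxi⟩ y ⟨j, hj, hyj⟩ z ⟨hxz, hzy⟩
  obtain ⟨l, hl, hil⟩ := F.mono hxz i hxi
  exact ⟨l, hS.out hi hj ⟨hil, Ph_le F hzy hl hyj⟩, hl⟩

/-- preimage of a convex set -/
def preC (S : Cvx J) : Cvx P := ⟨pre F S.1, pre_conn F S.2⟩

/-- `k_{ψ⁻¹ S} → Φ k_S` -/
noncomputable def toPh (S : Cvx J) : kC k (preC F S) ⟶ Ph F (kC k S) :=
  mkH (preC F S).1 (preC F S).2 (Ph F (kC k S)) (fun p => pe F (kC k S) (fun j => oneS k S.1 j) p)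
    (fun p hp => by
      rcases hx : F.ψ p with _ | j
      · exact none_zero F _ hx _
      · apply val_inj F _ hx
        refine (pe_val F _ _ hx).trans (Eq.trans ?_ (val_zero F _ hx).symm)
        apply Subtype.ext
        exact if_neg (fun hj => hp ⟨j, hj, hx⟩))
    (fun p q f hp => by
      obtain ⟨i, hi, hpi⟩ := hp
      obtain ⟨j, hj, hij⟩ := F.mono (leOfHom f) i hpi
      apply val_inj F _ hj
      refine (val_map F (kC k S) f hpi hj (homOfLE hij) _).trans ?_
      refine (congrArg _ (pe_val F _ _ hpi)).trans (Eq.trans ?_ (pe_val F _ _ hj).symm)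
      apply Subtype.ext
      refine (kS_map k S.2 (homOfLE hij) (oneS k S.1 i)).trans ?_
      show (if j ∈ S.1 then (if i ∈ S.1 then (1 : k) else 0) else 0) = (if j ∈ S.1 then 1 else 0)
      rw [if_pos hi])

/-- `Φ k_S → k_{ψ⁻¹ S}` -/
noncomputable def ofPh (S : Cvx J) : Ph F (kC k S) ⟶ kC k (preC F S) where
  app p := ModuleCat.ofHom
    { toFun := fun z => (⟨if h : ∃ j, F.ψ p = some j then
          (val F (kC k S) h.choose_spec z : cell k S.1 h.choose).1 else 0, by
        intro hp
        by_cases h : ∃ j, F.ψ p = some j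
        · rw [dif_pos h]
          exact (val F (kC k S) h.choose_spec z : cell k S.1 h.choose).2
            (fun hj => hp ⟨_, hj, h.choose_spec⟩)
        · rw [dif_neg h]⟩ : cell k (preC F S).1 p)
      map_add' := by
        intro z w
        apply Subtype.ext
        show (if h : ∃ j, F.ψ p = some j then
          (val F (kC k S) h.choose_spec (z + w) : cell k S.1 h.choose).1 else 0) =
          (if h : ∃ j, F.ψ p = some j then
          (val F (kC k S) h.choose_spec z : cell k S.1 h.choose).1 else 0) +
          (if h : ∃ j, F.ψ p = some j then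
          (val F (kC k S) h.choose_spec w : cell k S.1 h.choose).1 else 0)
        by_cases h : ∃ j, F.ψ p = some j
        · rw [dif_pos h, dif_pos h, dif_pos h]
          exact congrArg (fun x : cell k S.1 h.choose => x.1) (val_add F (kC k S) h.choose_spec z w)
        · rw [dif_neg h, dif_neg h, dif_neg h, add_zero]
      map_smul' := by
        intro c z
        apply Subtype.ext
        show (if h : ∃ j, F.ψ p = some j then
          (val F (kC k S) h.choose_spec (c • z) : cell k S.1 h.choose).1 else 0) =
          c * (if h : ∃ j, F.ψ p = some j then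
          (val F (kC k S) h.choose_spec z : cell k S.1 h.choose).1 else 0)
        by_cases h : ∃ j, F.ψ p = some j
        · rw [dif_pos h, dif_pos h]
          exact congrArg (fun x : cell k S.1 h.choose => x.1) (val_smul F (kC k S) h.choose_spec c z)
        · rw [dif_neg h, dif_neg h, mul_zero] }
  naturality p q f := by
    apply ModuleCat.hom_ext
    apply LinearMap.ext
    intro z
    apply Subtype.ext
    refine Eq.trans ?_ (kS_map k (preC F S).2 f _).symm
    show (if h : ∃ j, F.ψ q = some j then
          (val F (kC k S) h.choose_spec (((Ph F (kC k S)).map f).hom z) : cell k S.1 h.choose).1 else 0) =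
        (if q ∈ (preC F S).1 then (if h : ∃ j, F.ψ p = some j then
          (val F (kC k S) h.choose_spec z : cell k S.1 h.choose).1 else 0) else 0)
    by_cases hp : ∃ i, F.ψ p = some i
    · have hpi := hp.choose_spec
      set i := hp.choose
      obtain ⟨j', hj', hij'⟩ := F.mono (leOfHom f) i hpi
      have hq : ∃ j, F.ψ q = some j := ⟨j', hj'⟩
      rw [dif_pos hq, dif_pos hp]
      have hqj := hq.choose_spec
      set j := hq.choose
      have hij : i ≤ j := Ph_le F (leOfHom f) hpi hqj
      rw [val_map F (kC k S) f hpi hqj (homOfLE hij)]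
      refine (kS_map k S.2 (homOfLE hij) _).trans ?_
      by_cases hj : j ∈ S.1
      · rw [if_pos hj, if_pos (show q ∈ (preC F S).1 from ⟨j, hj, hqj⟩)]
      · rw [if_neg hj, if_neg]
        rintro ⟨l, hl, hql⟩
        rw [hqj] at hql
        exact hj ((Option.some.inj hql) ▸ hl)
    · have hpn : F.ψ p = none := by
        rcases hx : F.ψ p with _ | j
        · rfl
        · exact absurd ⟨j, hx⟩ hp
      have hz : z = 0 := none_zero F _ hpn z
      rw [hz, dif_neg hp, map_zero]
      have : (if q ∈ (preC F S).1 then (0 : k) else 0) = 0 := by simp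
      rw [this]
      by_cases hq : ∃ j, F.ψ q = some j
      · rw [dif_pos hq, val_zero]
        rfl
      · rw [dif_neg hq]

theorem ofPh_val (S : Cvx J) {p : P} {j : J} (h : F.ψ p = some j) (z : (Ph F (kC k S)).obj p) :
    (((ofPh F S).app p).hom z : cell k (preC F S).1 p).1 = (val F (kC k S) h z : cell k S.1 j).1 := by
  have hex : ∃ j, F.ψ p = some j := ⟨j, h⟩
  show (if h : ∃ j, F.ψ p = some j then
          (val F (kC k S) h.choose_spec z : cell k S.1 h.choose).1 else 0) = _
  rw [dif_pos hex]
  have key : ∀ (j' : J) (h' : F.ψ p = some j'), (val F (kC k S) h' z : cell k S.1 j').1 =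
      (val F (kC k S) h z : cell k S.1 j).1 := by
    intro j' h'
    have : j' = j := Option.some.inj (h'.symm.trans h)
    subst this
    rfl
  exact key _ hex.choose_spec

theorem toPh_val (S : Cvx J) {p : P} {j : J} (h : F.ψ p = some j) (x : cell k (preC F S).1 p) :
    (val F (kC k S) h (((toPh F S).app p).hom x) : cell k S.1 j).1 = x.1 := by
  have h1 : ((toPh F S).app p).hom x = x.1 • pe F (kC k S) (fun j => oneS k S.1 j) p := rfl
  have h2 : (val F (kC k S) h (((toPh F S).app p).hom x)) =
      x.1 • (oneS k S.1 j : (kC k S).obj j) := by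
    refine (congrArg _ h1).trans ?_
    refine (val_smul F (kC k S) h _ _).trans ?_
    exact congrArg (fun y => x.1 • y) (pe_val F (kC k S) (fun j => oneS k S.1 j) h)
  refine (congrArg (fun y : cell k S.1 j => y.1) h2).trans ?_
  show x.1 * (if j ∈ S.1 then 1 else 0) = x.1
  by_cases hx : x.1 = 0
  · rw [hx, zero_mul]
  · obtain ⟨l, hl, hpl⟩ := cell_mem k x hx
    have : l = j := Option.some.inj (hpl.symm.trans h)
    subst this
    rw [if_pos hl, mul_one]

theorem toPh_ofPh (S : Cvx J) : toPh F S ≫ ofPh F S = 𝟙 (kC k (preC F S)) := by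
  apply rep_ext
  intro p x
  apply Subtype.ext
  rcases hp : F.ψ p with _ | j
  · have h1 : ∀ y : cell k (preC F S).1 p, y.1 = 0 := by
      intro y
      apply y.2
      rintro ⟨j, _, hj⟩
      rw [hp] at hj
      exact absurd hj (by simp)
    exact (h1 _).trans (h1 _).symm
  · exact (ofPh_val F S hp _).trans (toPh_val F S hp x)

theorem ofPh_toPh (S : Cvx J) : ofPh F S ≫ toPh F S = 𝟙 (Ph F (kC k S)) := by
  apply rep_ext
  intro p x
  rcases hp : F.ψ p with _ | j
  · exact (none_zero F _ hp _).trans (none_zero F _ hp _).symm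
  · apply val_inj F _ hp
    apply Subtype.ext
    exact (toPh_val F S hp _).trans (ofPh_val F S hp x)

end Pool.Agent.X317.SR
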