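import Mathlib
import Pool.Agent.X317.SR.Tr
import Pool.Agent.X317.SR.Def

/-!
# Decomposition into spreads
-/

set_option autoImplicit false
set_option linter.all false

namespace Pool.Agent.X317.SR

open CategoryTheory CategoryTheory.Limits
open Classical ZeroObject

universe u

variable {k : Type u} [Field k] {P : Type u} [PartialOrder P]

/-- explicit finite direct sums -/
def SumE (D : Cvx P → Prop) (Y : Rep k P) : Prop :=
  ∃ (I : Type) (_ : Fintype I) (S : I → Cvx P) (a : ∀ i, kC k (S i) ⟶ Y) (b : ∀ i, Y ⟶ kC k (S i)),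
    (∀ i, D (S i)) ∧
    (∀ i, a i ≫ b i = 𝟙 _) ∧ (∀ i j, i ≠ j → a i ≫ b j = 0) ∧ ∑ i, b i ≫ a i = 𝟙 Y

theorem SumE_one (D : Cvx P → Prop) (S : Cvx P) (h : D S) : SumE D (kC k S) := by
  refine ⟨Unit, inferInstance, fun _ => S, fun _ => 𝟙 _, fun _ => 𝟙 _, fun _ => h, ?_, ?_, ?_⟩
  · intro i
    simp
  · intro i j h
    exact absurd (Subsingleton.elim i j) h
  · simp

theorem SumE_sigma (D : Cvx P → Prop) {I : Type} [Fintype I] (Z : I → Rep k P) (Y : Rep k P)
    (a : ∀ i, Z i ⟶ Y) (b : ∀ i, Y ⟶ Z i) (h1 : ∀ i, a i ≫ b i = 𝟙 _)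
    (h2 : ∀ i j, i ≠ j → a i ≫ b j = 0) (h3 : ∑ i, b i ≫ a i = 𝟙 Y)
    (hZ : ∀ i, SumE D (Z i)) : SumE D Y := by
  choose I' hI' S' a' b' hD' h1' h2' h3' using hZ
  refine ⟨Σ i, I' i, inferInstance, fun x => S' x.1 x.2, fun x => a' x.1 x.2 ≫ a x.1,
    fun x => b x.1 ≫ b' x.1 x.2, fun x => hD' x.1 x.2, ?_, ?_, ?_⟩
  · rintro ⟨i, x⟩
    show (a' i x ≫ a i) ≫ b i ≫ b' i x = 𝟙 _
    rw [Category.assoc, reassoc_of% (h1 i), h1']
  · rintro ⟨i, x⟩ ⟨j, y⟩ hxy
    show (a' i x ≫ a i) ≫ b j ≫ b' j y = 0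
    rw [Category.assoc]
    by_cases hij : i = j
    · subst hij
      rw [reassoc_of% (h1 i)]
      apply h2'
      intro hxy'
      exact hxy (by rw [hxy'])
    · rw [reassoc_of% (h2 i j hij), zero_comp, comp_zero]
  · rw [Fintype.sum_sigma]
    have h4 : ∀ i, ∑ x, (b i ≫ b' i x) ≫ a' i x ≫ a i = b i ≫ a i := by
      intro i
      have h5 : ∀ x, (b i ≫ b' i x) ≫ a' i x ≫ a i = b i ≫ (b' i x ≫ a' i x) ≫ a i := by
        intro x
        simp only [Category.assoc]
      rw [Finset.sum_congr rfl (fun x _ => h5 x), ← Preadditive.comp_sum, ← Preadditive.sum_comp, h3',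
        Category.id_comp]
    rw [Finset.sum_congr rfl (fun i _ => h4 i), h3]

/-- spreads, bundled -/
def IsSp (S : Cvx P) : Prop := IsSpread S.1

theorem comp_conn {S : Set P} {p0 : P} {V : Set P}
    (hV : V = {q | Relation.EqvGen (fun a b => a ∈ S ∧ b ∈ S ∧ a ≤ b) p0 q}) {x y : P}
    (h : Relation.EqvGen (fun a b => a ∈ S ∧ b ∈ S ∧ a ≤ b) x y) :
    (x ∈ V ↔ y ∈ V) ∧ (x ∈ V → Relation.EqvGen (fun a b => a ∈ V ∧ b ∈ V ∧ a ≤ b) x y) := by
  induction h with
  | rel x y h =>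
    have h1 : x ∈ V ↔ y ∈ V := by
      subst hV
      constructor
      · intro hx
        exact Relation.EqvGen.trans _ _ _ hx (Relation.EqvGen.rel _ _ h)
      · intro hy
        exact Relation.EqvGen.trans _ _ _ hy (Relation.EqvGen.symm _ _ (Relation.EqvGen.rel _ _ h))
    exact ⟨h1, fun hx => Relation.EqvGen.rel _ _ ⟨hx, h1.1 hx, h.2.2⟩⟩
  | refl x => exact ⟨Iff.rfl, fun _ => Relation.EqvGen.refl _⟩
  | symm x y _ ih => exact ⟨ih.1.symm, fun hy => Relation.EqvGen.symm _ _ (ih.2 (ih.1.2 hy))⟩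
  | trans x y z _ _ ih1 ih2 =>
    exact ⟨ih1.1.trans ih2.1, fun hx => Relation.EqvGen.trans _ _ _ (ih1.2 hx) (ih2.2 (ih1.1.1 hx))⟩

/-- a clopen part -/
def Clp (S V : Set P) : Prop := V ⊆ S ∧ ∀ p ∈ S, ∀ q ∈ S, p ≤ q → (p ∈ V ↔ q ∈ V)

theorem Clp_conn {S V : Set P} (hS : S.OrdConnected) (h : Clp S V) : V.OrdConnected := by
  constructor
  intro x hx y hy z hz
  exact (h.2 x (h.1 hx) z (hS.out (h.1 hx) (h.1 hy) hz) hz.1).1 hx

/-- inclusion of a clopen part -/
noncomputable def cin (S : Cvx P) (V : Cvx P) (h : Clp S.1 V.1) : kC k V ⟶ kC k S :=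
  mkC V.1 V.2 S.1 S.2 (fun p => if p ∈ V.1 then 1 else 0)
    (fun p hp => if_neg (fun hV => hp ⟨hV, h.1 hV⟩))
    (fun p q hpq hp hq => by rw [if_pos hp, if_pos ((h.2 p (h.1 hp) q hq hpq).1 hp)])

/-- projection to a clopen part -/
noncomputable def cpr (S : Cvx P) (V : Cvx P) (h : Clp S.1 V.1) : kC k S ⟶ kC k V :=
  mkC S.1 S.2 V.1 V.2 (fun p => if p ∈ V.1 then 1 else 0)
    (fun p hp => if_neg (fun hV => hp ⟨h.1 hV, hV⟩))
    (fun p q hpq hp hq => by rw [if_pos hq, if_pos ((h.2 p hp q (h.1 hq) hpq).2 hq)])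

theorem cin_co (S : Cvx P) (V : Cvx P) (h : Clp S.1 V.1) (p : P) :
    co (cin (k := k) S V h) p = if p ∈ V.1 then 1 else 0 := mkC_co _ _ _ p

theorem cpr_co (S : Cvx P) (V : Cvx P) (h : Clp S.1 V.1) (p : P) :
    co (cpr (k := k) S V h) p = if p ∈ V.1 then 1 else 0 := mkC_co _ _ _ p

theorem co_id' (S : Cvx P) (p : P) : co (𝟙 (kC k S)) p = if p ∈ S.1 then 1 else 0 := by
  by_cases hp : p ∈ S.1
  · rw [co_id hp, if_pos hp]
  · rw [co_zero_left _ hp, if_neg hp]

theorem coadd {S U : Cvx P} (f g : kC k S ⟶ kC k U) (p : P) : co (f + g) p = co f p + co g p := rfl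

theorem cozero {S U : Cvx P} (p : P) : co (0 : kC k S ⟶ kC k U) p = 0 := rfl

theorem split_two (S V W : Cvx P) (hV : Clp S.1 V.1) (hW : Clp S.1 W.1)
    (hd : ∀ p ∈ S.1, (p ∈ V.1 ↔ p ∉ W.1)) :
    cin (k := k) S V hV ≫ cpr S V hV = 𝟙 _ ∧ cin (k := k) S W hW ≫ cpr S W hW = 𝟙 _ ∧
    cin (k := k) S V hV ≫ cpr S W hW = 0 ∧ cin (k := k) S W hW ≫ cpr S V hV = 0 ∧
    cpr (k := k) S V hV ≫ cin S V hV + cpr S W hW ≫ cin S W hW = 𝟙 _ := by
  refine ⟨?_, ?_, ?_, ?_, ?_⟩
  · apply co_ext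
    intro p
    rw [co_comp, cin_co, cpr_co, co_id']
    split_ifs <;> simp
  · apply co_ext
    intro p
    rw [co_comp, cin_co, cpr_co, co_id']
    split_ifs <;> simp
  · apply co_ext
    intro p
    rw [co_comp, cin_co, cpr_co, cozero]
    by_cases h : p ∈ V.1
    · rw [if_pos h, if_neg ((hd p (hV.1 h)).1 h), mul_zero]
    · rw [if_neg h, zero_mul]
  · apply co_ext
    intro p
    rw [co_comp, cin_co, cpr_co, cozero]
    by_cases h : p ∈ V.1
    · rw [if_neg ((hd p (hV.1 h)).1 h), zero_mul]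
    · rw [if_neg h, mul_zero]
  · apply co_ext
    intro p
    rw [coadd, co_comp, co_comp, cin_co, cpr_co, cin_co, cpr_co, co_id']
    by_cases hS : p ∈ S.1
    · by_cases h : p ∈ V.1
      · rw [if_pos h, if_neg ((hd p hS).1 h), if_pos hS]
        simp
      · have hw : p ∈ W.1 := by
          by_contra hw
          exact h ((hd p hS).2 hw)
        rw [if_neg h, if_pos hw, if_pos hS]
        simp
    · rw [if_neg (fun h => hS (hV.1 h)), if_neg (fun h => hS (hW.1 h)), if_neg hS]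
      simp

theorem dec [Finite P] (n : ℕ) : ∀ S : Cvx P, S.1.ncard ≤ n → SumE IsSp (kC k S) := by
  induction n with
  | zero =>
    intro S hS
    have h0 : S.1 = ∅ := (Set.ncard_eq_zero (Set.toFinite _)).1 (by omega)
    refine ⟨Empty, inferInstance, fun i => i.elim, fun i => i.elim, fun i => i.elim, fun i => i.elim,
      fun i => i.elim, fun i => i.elim, ?_⟩
    apply co_ext
    intro p
    have hp : p ∉ S.1 := by
      rw [h0]
      exact Set.notMem_empty p
    rw [co_zero_left _ hp, co_zero_left _ hp]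
  | succ n ih =>
    intro S hS
    by_cases h0 : S.1 = ∅
    · apply ih
      rw [h0, Set.ncard_empty]
      omega
    · obtain ⟨p0, hp0⟩ := Set.nonempty_iff_ne_empty.2 h0
      let V0 : Set P := {q | Relation.EqvGen (fun a b => a ∈ S.1 ∧ b ∈ S.1 ∧ a ≤ b) p0 q}
      have hV0S : V0 ⊆ S.1 := by
        intro q hq
        have key : ∀ x y, Relation.EqvGen (fun a b => a ∈ S.1 ∧ b ∈ S.1 ∧ a ≤ b) x y →
            (x ∈ S.1 ↔ y ∈ S.1) := by
          intro x y h
          induction h with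
          | rel x y h => exact ⟨fun _ => h.2.1, fun _ => h.1⟩
          | refl x => exact Iff.rfl
          | symm x y _ ih => exact ih.symm
          | trans x y z _ _ ih1 ih2 => exact ih1.trans ih2
        exact (key p0 q hq).1 hp0
      have hV : Clp S.1 V0 := ⟨hV0S, fun p hp q hq hpq =>
        (comp_conn (V := V0) (S := S.1) (p0 := p0) rfl (Relation.EqvGen.rel p q ⟨hp, hq, hpq⟩)).1⟩
      have hW : Clp S.1 (S.1 \ V0) := ⟨Set.diff_subset, fun p hp q hq hpq => by
        have := hV.2 p hp q hq hpq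
        constructor
        · rintro ⟨_, h⟩
          exact ⟨hq, fun h' => h (this.2 h')⟩
        · rintro ⟨_, h⟩
          exact ⟨hp, fun h' => h (this.1 h')⟩⟩
      let V : Cvx P := ⟨V0, Clp_conn S.2 hV⟩
      let W : Cvx P := ⟨S.1 \ V0, Clp_conn S.2 hW⟩
      obtain ⟨e1, e2, e3, e4, e5⟩ := split_two (k := k) S V W hV hW (fun p hp =>
        ⟨fun h h' => h'.2 h, fun h => by
          by_contra h'
          exact h ⟨hp, h'⟩⟩)
      have hpV : p0 ∈ V0 := Relation.EqvGen.refl _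
      have hsp : IsSp V := by
        refine ⟨⟨p0, hpV⟩, V.2, ?_⟩
        intro x hx y hy
        have h1 : Relation.EqvGen (fun a b => a ∈ S.1 ∧ b ∈ S.1 ∧ a ≤ b) x y :=
          Relation.EqvGen.trans _ _ _ (Relation.EqvGen.symm _ _ hx) hy
        exact (comp_conn (V := V0) (S := S.1) (p0 := p0) rfl h1).2 hx
      have hcard : W.1.ncard ≤ n := by
        have h1 : (S.1 \ V0).ncard < S.1.ncard := by
          apply Set.ncard_lt_ncard _ (Set.toFinite _)
          refine ⟨Set.diff_subset, fun h => ?_⟩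
          exact (h hp0).2 hpV
        have h2 : W.1.ncard = (S.1 \ V0).ncard := rfl
        omega
      refine SumE_sigma IsSp (I := Bool)
        (fun b => match b with
          | true => kC k V
          | false => kC k W) (kC k S)
        (fun b => match b with
          | true => cin S V hV
          | false => cin S W hW)
        (fun b => match b with
          | true => cpr S V hV
          | false => cpr S W hW) ?_ ?_ ?_ ?_
      · rintro (_ | _)
        · exact e2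
        · exact e1
      · rintro (_ | _) (_ | _) hij
        · exact absurd rfl hij
        · exact e4
        · exact e3
        · exact absurd rfl hij
      · rw [Fintype.sum_bool]
        exact e5
      · rintro (_ | _)
        · exact ih W hcard
        · exact SumE_one IsSp V hsp

theorem SumC_SumE [Finite P] {Y : Rep k P} (h : SumC Y) : SumE IsSp Y := by
  obtain ⟨I, _, S, a, b, h1, h2, h3⟩ := h
  exact SumE_sigma IsSp (fun i => kC k (S i)) Y a b h1 h2 h3 (fun i => dec _ (S i) le_rfl)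

theorem iso_of_SumE {D : Cvx P → Prop} {Y : Rep k P} (h : SumE D Y) :
    ∃ (n : ℕ) (S : Fin n → Cvx P), (∀ i, D (S i)) ∧ Nonempty (Y ≅ ⨁ fun i => kC k (S i)) := by
  obtain ⟨I, _, S, a, b, hD, h1, h2, h3⟩ := h
  let e := Fintype.equivFin I
  refine ⟨Fintype.card I, fun i => S (e.symm i), fun i => hD _, ⟨?_⟩⟩
  exact
    { hom := biproduct.lift (fun i => b (e.symm i))
      inv := biproduct.desc (fun i => a (e.symm i))
      hom_inv_id := by
        rw [biproduct.lift_desc]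
        rw [← h3]
        exact Equiv.sum_comp e.symm (fun i => b i ≫ a i)
      inv_hom_id := by
        apply biproduct.hom_ext'
        intro i
        apply biproduct.hom_ext
        intro j
        rw [biproduct.ι_desc_assoc, Category.assoc, biproduct.lift_π, Category.comp_id]
        by_cases hij : i = j
        · subst hij
          rw [h1, biproduct.ι_π_self]
        · rw [h2 _ _ (fun h => hij (e.symm.injective h)), biproduct.ι_π_ne _ hij] }

theorem SumE_of_bip {D : Cvx P → Prop} {I : Type} [Fintype I] (S : I → Cvx P) (h : ∀ i, D (S i)) :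
    SumE D (⨁ fun i => kC k (S i)) := by
  refine ⟨I, inferInstance, S, fun i => biproduct.ι (fun i => kC k (S i)) i,
    fun i => biproduct.π (fun i => kC k (S i)) i, h, ?_, ?_, ?_⟩
  · intro i
    exact biproduct.ι_π_self _ i
  · intro i j hij
    exact biproduct.ι_π_ne _ hij
  · exact biproduct.total

theorem SumE_iso {D : Cvx P → Prop} {Y Z : Rep k P} (e : Y ≅ Z) (h : SumE D Y) : SumE D Z := by
  obtain ⟨I, hI, S, a, b, hD, h1, h2, h3⟩ := h
  refine ⟨I, hI, S, fun i => a i ≫ e.hom, fun i => e.inv ≫ b i, hD, ?_, ?_, ?_⟩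
  · intro i
    rw [Category.assoc, e.hom_inv_id_assoc, h1]
  · intro i j hij
    rw [Category.assoc, e.hom_inv_id_assoc, h2 i j hij]
  · have h4 : ∀ i, (e.inv ≫ b i) ≫ a i ≫ e.hom = e.inv ≫ (b i ≫ a i) ≫ e.hom := by
      intro i
      simp only [Category.assoc]
    rw [Finset.sum_congr rfl (fun i _ => h4 i), ← Preadditive.comp_sum, ← Preadditive.sum_comp, h3,
      Category.id_comp, e.inv_hom_id]

section
variable {J : Type u} [PartialOrder J] (F : Flo J P)

theorem Ph_SumE {D : Cvx J → Prop} {D' : Cvx P → Prop} (hD : ∀ S, D S → D' (preC F S)) {Y : Rep k J}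
    (h : SumE D Y) : SumE D' (Ph F Y) := by
  obtain ⟨I, hI, S, a, b, hDS, h1, h2, h3⟩ := h
  refine ⟨I, hI, fun i => preC F (S i), fun i => toPh F (S i) ≫ Phm F (a i),
    fun i => Phm F (b i) ≫ ofPh F (S i), fun i => hD _ (hDS i), ?_, ?_, ?_⟩
  · intro i
    have : (toPh F (S i) ≫ Phm F (a i)) ≫ Phm F (b i) ≫ ofPh F (S i) =
        toPh F (S i) ≫ Phm F (a i ≫ b i) ≫ ofPh F (S i) := by
      rw [Phm_comp]
      simp only [Category.assoc]
    rw [this, h1, Phm_id, Category.id_comp, toPh_ofPh]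
  · intro i j hij
    have : (toPh F (S i) ≫ Phm F (a i)) ≫ Phm F (b j) ≫ ofPh F (S j) =
        toPh F (S i) ≫ Phm F (a i ≫ b j) ≫ ofPh F (S j) := by
      rw [Phm_comp]
      simp only [Category.assoc]
    rw [this, h2 i j hij, Phm_zero, zero_comp, comp_zero]
  · have : ∀ i, (Phm F (b i) ≫ ofPh F (S i)) ≫ toPh F (S i) ≫ Phm F (a i) = Phm F (b i ≫ a i) := by
      intro i
      rw [Phm_comp]
      simp only [Category.assoc]
      rw [reassoc_of% (ofPh_toPh F (S i))]
    rw [Finset.sum_congr rfl (fun i _ => this i), ← Phm_sum, h3, Phm_id]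

theorem pre_spread (S : Cvx J) (h : IsSp S) : IsSp (preC F S) := by
  have h0 : ∀ j ∈ S.1, F.φ j ∈ pre F S.1 := fun j hj => ⟨j, hj, F.emb j⟩
  refine ⟨?_, (preC F S).2, ?_⟩
  · obtain ⟨j, hj⟩ := h.nonempty
    exact ⟨F.φ j, h0 j hj⟩
  · have h1 : ∀ x ∈ pre F S.1, ∃ j ∈ S.1,
        Relation.EqvGen (fun a b => a ∈ pre F S.1 ∧ b ∈ pre F S.1 ∧ a ≤ b) (F.φ j) x := by
      rintro x ⟨j, hj, hx⟩
      exact ⟨j, hj, Relation.EqvGen.rel _ _ ⟨h0 j hj, ⟨j, hj, hx⟩, F.le_of_eq hx⟩⟩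
    have h2 : ∀ i j, Relation.EqvGen (fun a b => a ∈ S.1 ∧ b ∈ S.1 ∧ a ≤ b) i j →
        Relation.EqvGen (fun a b => a ∈ pre F S.1 ∧ b ∈ pre F S.1 ∧ a ≤ b) (F.φ i) (F.φ j) := by
      intro i j hij
      induction hij with
      | rel x y h => exact Relation.EqvGen.rel _ _ ⟨h0 x h.1, h0 y h.2.1, F.φmono h.2.2⟩
      | refl x => exact Relation.EqvGen.refl _
      | symm x y _ ih => exact Relation.EqvGen.symm _ _ ih
      | trans x y z _ _ ih1 ih2 => exact Relation.EqvGen.trans _ _ _ ih1 ih2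
    intro x hx y hy
    obtain ⟨i, hi, hix⟩ := h1 x hx
    obtain ⟨j, hj, hjy⟩ := h1 y hy
    exact Relation.EqvGen.trans _ _ _ (Relation.EqvGen.symm _ _ hix)
      (Relation.EqvGen.trans _ _ _ (h2 i j (h.connected i hi j hj)) hjy)

theorem pre_Ici (j : J) : preC F ⟨Set.Ici j, Set.ordConnected_Ici⟩ = ⟨Set.Ici (F.φ j), Set.ordConnected_Ici⟩ := by
  apply Subtype.ext
  ext p
  constructor
  · rintro ⟨i, hi, hp⟩
    apply (F.gc j p).1
    rw [hp]
    intro l hl
    exact ⟨i, rfl, (Option.some.inj hl) ▸ hi⟩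
  · intro hp
    obtain ⟨i, hi, hji⟩ := (F.gc j p).2 hp j rfl
    exact ⟨i, hji, hi⟩

end

end Pool.Agent.X317.SR
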