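import Mathlib
import Pool.Agent.X317.SR.Dec

/-!
# Finite presentation
-/

set_option autoImplicit false
set_option linter.all false

namespace Pool.Agent.X317.SR

open CategoryTheory CategoryTheory.Limits
open Classical ZeroObject

universe u

section
variable {k : Type u} [Field k] {P : Type u} [PartialOrder P]

theorem exact_ev (S : ShortComplex (Rep k P))
    (h : ∀ j, (S.map ((evaluation P (ModuleCat.{u} k)).obj j)).Exact) : S.Exact := by
  rw [ShortComplex.exact_iff_isZero_homology]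
  apply Functor.isZero
  intro j
  have h1 := (ShortComplex.exact_iff_isZero_homology _).1 (h j)
  exact h1.of_iso (S.mapHomologyIso ((evaluation P (ModuleCat.{u} k)).obj j)).symm

theorem exact_el {A B C : Rep k P} (i : A ⟶ B) (p : B ⟶ C) (w : i ≫ p = 0)
    (ex : ∀ x (b : B.obj x), (p.app x).hom b = 0 → ∃ a, (i.app x).hom a = b) :
    (ShortComplex.mk i p w).Exact := by
  apply exact_ev
  intro j
  rw [ShortComplex.moduleCat_exact_iff]
  intro x hx
  exact ex j x hx

theorem el_exact {A B C : Rep k P} (i : A ⟶ B) (p : B ⟶ C) (w : i ≫ p = 0)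
    (h : (ShortComplex.mk i p w).Exact) (x : P) (b : B.obj x) (hb : (p.app x).hom b = 0) :
    ∃ a, (i.app x).hom a = b := by
  have h1 := h.map ((evaluation P (ModuleCat.{u} k)).obj x)
  rw [ShortComplex.moduleCat_exact_iff] at h1
  exact h1 b hb

theorem mono_el {A B : Rep k P} (i : A ⟶ B) (h : ∀ x, Function.Injective (i.app x).hom) : Mono i := by
  haveI : ∀ x, Mono (i.app x) := fun x => (ModuleCat.mono_iff_injective _).2 (h x)
  exact NatTrans.mono_of_mono_app i

theorem epi_el {A B : Rep k P} (i : A ⟶ B) (h : ∀ x, Function.Surjective (i.app x).hom) : Epi i := by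
  haveI : ∀ x, Epi (i.app x) := fun x => (ModuleCat.epi_iff_surjective _).2 (h x)
  exact NatTrans.epi_of_epi_app i

theorem el_epi {A B : Rep k P} (i : A ⟶ B) [Epi i] (x : P) : Function.Surjective (i.app x).hom := by
  have h : Epi (i.app x) := (NatTrans.epi_iff_epi_app i).1 inferInstance x
  exact (ModuleCat.epi_iff_surjective _).1 h

theorem iso_el {A B : Rep k P} (i : A ⟶ B) (h : ∀ x, Function.Bijective (i.app x).hom) : IsIso i := by
  haveI : ∀ x, IsIso (i.app x) := fun x => by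
    rw [ConcreteCategory.isIso_iff_bijective]
    exact h x
  exact NatIso.isIso_of_isIso_app i

theorem SES_exact {A B C : Rep k P} {i : A ⟶ B} {p : B ⟶ C} (h : SES i p) (w : i ≫ p = 0) :
    (ShortComplex.mk i p w).ShortExact where
  exact := exact_el i p w h.ex
  mono_f := mono_el i h.inj
  epi_g := epi_el p h.surj

theorem SES_w {A B C : Rep k P} {i : A ⟶ B} {p : B ⟶ C} (h : SES i p) : i ≫ p = 0 := by
  apply rep_ext
  intro x a
  exact h.ip x a

/-- representables -/
def IsIc (S : Cvx P) : Prop := ∃ p : P, S = ⟨Set.Ici p, Set.ordConnected_Ici⟩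

theorem rep_form {Y : Rep k P} (h : SumE IsIc Y) :
    ∃ (n : ℕ) (a : Fin n → P), Nonempty (Y ≅ ⨁ fun i => kS k (Set.Ici (a i)) Set.ordConnected_Ici) := by
  obtain ⟨n, S, hS, ⟨e⟩⟩ := iso_of_SumE h
  choose a ha using hS
  have : S = fun i => ⟨Set.Ici (a i), Set.ordConnected_Ici⟩ := funext ha
  subst this
  exact ⟨n, a, ⟨e⟩⟩

theorem FP_crit {Y1 Y0 M : Rep k P} (h1 : SumE IsIc Y1) (h0 : SumE IsIc Y0) (α : Y1 ⟶ Y0) (p : Y0 ⟶ M)
    (w : α ≫ p = 0) (hp : ∀ x, Function.Surjective (p.app x).hom)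
    (ex : ∀ x (b : Y0.obj x), (p.app x).hom b = 0 → ∃ a, (α.app x).hom a = b) : IsFP M := by
  obtain ⟨m, a, ⟨e1⟩⟩ := rep_form h1
  obtain ⟨n, b, ⟨e0⟩⟩ := rep_form h0
  let α' := e1.inv ≫ α ≫ e0.hom
  refine ⟨m, n, a, b, α', ⟨?_⟩⟩
  have w' : α' ≫ (e0.inv ≫ p) = 0 := by
    show (e1.inv ≫ α ≫ e0.hom) ≫ e0.inv ≫ p = 0
    simp only [Category.assoc, e0.hom_inv_id_assoc, w, comp_zero]
  haveI : Epi p := epi_el p hp
  haveI : Epi (e0.inv ≫ p) := epi_comp _ _
  have hex : (ShortComplex.mk α' (e0.inv ≫ p) w').Exact := by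
    have h2 : (ShortComplex.mk α p w).Exact := exact_el α p w ex
    refine (ShortComplex.exact_iff_of_iso ?_).1 h2
    refine ShortComplex.isoMk e1 e0 (Iso.refl M) ?_ ?_
    · show e1.hom ≫ e1.inv ≫ α ≫ e0.hom = α ≫ e0.hom
      rw [e1.hom_inv_id_assoc]
    · show e0.hom ≫ e0.inv ≫ p = p ≫ 𝟙 M
      rw [e0.hom_inv_id_assoc, Category.comp_id]
  have hcol := hex.gIsCokernel
  exact (hcol.coconePointUniqueUpToIso (colimit.isColimit (parallelPair α' 0)))

theorem FP_form {M : Rep k P} (h : IsFP M) :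
    ∃ (m n : ℕ) (a : Fin m → P) (b : Fin n → P)
      (α : (⨁ fun i => kS k (Set.Ici (a i)) Set.ordConnected_Ici) ⟶
      (⨁ fun j => kS k (Set.Ici (b j)) Set.ordConnected_Ici)) (p : _ ⟶ M), α ≫ p = 0 ∧
      (∀ x, Function.Surjective (p.app x).hom) ∧
      (∀ x y, (p.app x).hom y = 0 → ∃ z, (α.app x).hom z = y) := by
  obtain ⟨m, n, a, b, α, ⟨e⟩⟩ := h
  refine ⟨m, n, a, b, α, cokernel.π α ≫ e.inv, ?_, ?_, ?_⟩
  · rw [cokernel.condition_assoc, zero_comp]
  · haveI : Epi (cokernel.π α ≫ e.inv) := epi_comp _ _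
    exact fun x => el_epi _ x
  · have hw : α ≫ cokernel.π α = 0 := cokernel.condition α
    have h1 : (ShortComplex.mk α (cokernel.π α) hw).Exact :=
      ShortComplex.exact_of_g_is_cokernel _ (cokernelIsCokernel α)
    intro x y hy
    apply el_exact α (cokernel.π α) hw h1
    have h2 : ((cokernel.π α ≫ e.inv).app x).hom y = (e.inv.app x).hom (((cokernel.π α).app x).hom y) := rfl
    rw [h2] at hy
    have h3 := congrArg (fun z => (e.hom.app x).hom z) hy
    have h4 : (e.hom.app x).hom ((e.inv.app x).hom (((cokernel.π α).app x).hom y)) =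
        ((cokernel.π α).app x).hom y := by
      have h5 := congrArg (fun f : cokernel α ⟶ cokernel α => (f.app x).hom (((cokernel.π α).app x).hom y))
        e.inv_hom_id
      exact h5
    have h6 : (e.hom.app x).hom (0 : M.obj x) = 0 := map_zero _
    exact h4.symm.trans (h3.trans h6)

theorem IsFP_iso {M N : Rep k P} (e : M ≅ N) (h : IsFP M) : IsFP N := by
  obtain ⟨m, n, a, b, α, ⟨e'⟩⟩ := h
  exact ⟨m, n, a, b, α, ⟨e.symm ≪≫ e'⟩⟩

end

section
variable {k : Type u} [Field k] {J : Type u} [PartialOrder J] [Finite J]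

theorem cover (N : Rep k J) (hN : PFD N) : ∃ (Y : Rep k J) (p : Y ⟶ N), SumE IsIc Y ∧
    ∀ x, Function.Surjective (p.app x).hom := by
  haveI : ∀ j, FiniteDimensional k (N.obj j) := hN
  haveI : Fintype J := Fintype.ofFinite J
  let e := Fintype.equivFin J
  let I : Type := Σ i : Fin (Fintype.card J), Fin (Module.finrank k (N.obj (e.symm i)))
  let S : I → Cvx J := fun x => ⟨Set.Ici (e.symm x.1), Set.ordConnected_Ici⟩
  let bs : ∀ j, Module.Basis (Fin (Module.finrank k (N.obj j))) k (N.obj j) := fun j =>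
    Module.finBasis k (N.obj j)
  let f : ∀ x : I, kC k (S x) ⟶ N := fun x => yon (e.symm x.1) (bs (e.symm x.1) x.2)
  refine ⟨⨁ (fun x => kC k (S x)), biproduct.desc f, SumE_of_bip S (fun x => ⟨_, rfl⟩), ?_⟩
  intro j
  rw [← LinearMap.range_eq_top]
  rw [eq_top_iff]
  intro y _
  obtain ⟨i, rfl⟩ := e.symm.surjective j
  rw [← (bs (e.symm i)).sum_repr y]
  apply Submodule.sum_mem
  intro l _
  apply Submodule.smul_mem
  refine ⟨((biproduct.ι (fun x => kC k (S x)) ⟨i, l⟩).app (e.symm i)).hom (oneS k _ (e.symm i)), ?_⟩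
  have h1 := congrArg (fun g : kC k (S ⟨i, l⟩) ⟶ N => (g.app (e.symm i)).hom (oneS k _ (e.symm i)))
    (biproduct.ι_desc f ⟨i, l⟩)
  refine Eq.trans ?_ (h1.trans ?_)
  · rfl
  · exact yon_el (e.symm i) (bs (e.symm i) l)

variable {P : Type u} [PartialOrder P] (F : Flo J P)

theorem Ph_Ic {S : Cvx J} (h : IsIc S) : IsIc (preC F S) := by
  obtain ⟨j, rfl⟩ := h
  exact ⟨F.φ j, pre_Ici F j⟩

theorem Ph_FP (N : Rep k J) (hN : PFD N) : IsFP (Ph F N) := by
  obtain ⟨Y0, p, hY0, hp⟩ := cover N hN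
  have hY0' : PFD Y0 := by
    obtain ⟨I, hI, S, a, b, hD, h1, h2, h3⟩ := hY0
    exact PFD_SumC ⟨I, hI, S, a, b, h1, h2, h3⟩
  obtain ⟨Y1, q, hY1, hq⟩ := cover (KR p) (KR_pfd p hY0')
  have hs := Ph_SES F (KR_ses p hp)
  refine FP_crit (Ph_SumE F (D' := IsIc) (fun S => Ph_Ic F) hY1) (Ph_SumE F (D' := IsIc) (fun S => Ph_Ic F) hY0)
    (Phm F (q ≫ KRi p)) (Phm F p) ?_ hs.surj ?_
  · rw [← Phm_comp, Category.assoc, KRi_comp, comp_zero, Phm_zero]
  · intro x b hb
    obtain ⟨a, ha⟩ := hs.ex x b hb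
    rcases hx : F.ψ x with _ | j
    · exact ⟨0, (none_zero F _ hx _).trans (none_zero F _ hx _).symm⟩
    · obtain ⟨z, hz⟩ := hq j (val F _ hx a)
      obtain ⟨z', hz'⟩ := val_surj F Y1 hx z
      refine ⟨z', ?_⟩
      apply val_inj F _ hx
      rw [val_app, hz', ← ha, val_app, ← hz]
      rfl

end

section
variable {k : Type u} [Field k] {J : Type u} [PartialOrder J] {P : Type u} [PartialOrder P] (F : Flo J P)

/-- restriction -/
noncomputable def Rs (M : Rep k P) : Rep k J where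
  obj j := M.obj (F.φ j)
  map {i j} f := M.map (homOfLE (F.φmono (leOfHom f)))
  map_id i := by
    apply ModuleCat.hom_ext
    apply LinearMap.ext
    intro z
    exact map_id' M _ z
  map_comp f g := by
    apply ModuleCat.hom_ext
    apply LinearMap.ext
    intro z
    exact (map_map' M _ _ _ z).symm

/-- values -/
noncomputable def xv (M : Rep k P) (p : P) : ∀ (a : Option J) (h : ∀ j, a = some j → F.φ j ≤ p),
    xo (Rs F M) a →ₗ[k] M.obj p
  | none, _ => 0
  | some j, h => (M.map (homOfLE (h j rfl))).hom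

/-- the counit -/
noncomputable def cu (M : Rep k P) : Ph F (Rs F M) ⟶ M where
  app p := ModuleCat.ofHom (xv F M p (F.ψ p) (fun j hj => F.le_of_eq hj))
  naturality p q f := by
    apply ModuleCat.hom_ext
    apply LinearMap.ext
    intro z
    have key : ∀ (a b : Option J) (ha : ∀ j, a = some j → F.φ j ≤ p) (hb : ∀ j, b = some j → F.φ j ≤ q)
        (hab : Rel a b) (z : xo (Rs F M) a),
        xv F M q b hb ((xm (Rs F M) a b hab).hom z) = (M.map f).hom (xv F M p a ha z) := by
      intro a b ha hb hab z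
      cases a with
      | none =>
        show xv F M q b hb 0 = (M.map f).hom 0
        rw [map_zero, map_zero]
      | some i =>
        cases b with
        | none =>
          obtain ⟨j, hj, _⟩ := hab i rfl
          exact absurd hj (by simp)
        | some j =>
          show (M.map (homOfLE (hb j rfl))).hom ((M.map (homOfLE (F.φmono hab.some_le))).hom z) =
            (M.map f).hom ((M.map (homOfLE (ha i rfl))).hom z)
          exact (map_map' M _ _ (homOfLE (F.φmono hab.some_le) ≫ homOfLE (hb j rfl)) z).trans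
            (map_map' M _ _ (homOfLE (F.φmono hab.some_le) ≫ homOfLE (hb j rfl)) z).symm
    exact key _ _ _ _ _ z

theorem cu_val (M : Rep k P) {p : P} {j : J} (h : F.ψ p = some j) (z : (Ph F (Rs F M)).obj p) :
    ((cu F M).app p).hom z = (M.map (homOfLE (F.le_of_eq h))).hom (val F (Rs F M) h z) := by
  have key : ∀ (a : Option J) (h : a = some j) (ha : ∀ j, a = some j → F.φ j ≤ p) (z : xo (Rs F M) a),
      xv F M p a ha z = (M.map (homOfLE (ha j h))).hom ((xm (Rs F M) a (some j) (Rel.of_eq h)).hom z) := by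
    rintro a rfl ha z
    rw [xm_id]
    rfl
  exact key (F.ψ p) h (fun j hj => F.le_of_eq hj) z

/-- constant on cells -/
structure Cc (M : Rep k P) : Prop where
  inj : ∀ {p : P} {j : J} (h : F.ψ p = some j), Function.Injective (M.map (homOfLE (F.le_of_eq h))).hom
  surj : ∀ {p : P} {j : J} (h : F.ψ p = some j), Function.Surjective (M.map (homOfLE (F.le_of_eq h))).hom
  zero : ∀ {p : P} (h : F.ψ p = none) (z : M.obj p), z = 0

theorem Cc_iso (M : Rep k P) (h : Cc F M) : IsIso (cu F M) := by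
  apply iso_el
  intro p
  rcases hp : F.ψ p with _ | j
  · constructor
    · intro z w _
      exact (none_zero F _ hp _).trans (none_zero F _ hp _).symm
    · intro y
      exact ⟨0, (h.zero hp _).trans (h.zero hp _).symm⟩
  · constructor
    · intro z w hzw
      rw [cu_val F M hp, cu_val F M hp] at hzw
      exact val_inj F _ hp (h.inj hp hzw)
    · intro y
      obtain ⟨x, hx⟩ := h.surj hp y
      obtain ⟨z, hz⟩ := val_surj F (Rs F M) hp x
      refine ⟨z, ?_⟩
      rw [cu_val F M hp, hz]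
      exact hx

theorem Ic_iff {i j : J} {p : P} (h : F.ψ p = some j) : F.φ i ≤ p ↔ F.φ i ≤ F.φ j := by
  constructor
  · intro hp
    have h1 := (F.gc i p).2 hp
    rw [h] at h1
    exact F.φmono h1.some_le
  · intro hp
    exact hp.trans (F.le_of_eq h)

theorem Cc_Ic (i : J) : Cc F (kS k (Set.Ici (F.φ i)) Set.ordConnected_Ici) where
  inj := by
    intro p j h z w hzw
    have h1 := kS_map k (Set.ordConnected_Ici (a := F.φ i)) (homOfLE (F.le_of_eq h)) z
    have h2 := kS_map k (Set.ordConnected_Ici (a := F.φ i)) (homOfLE (F.le_of_eq h)) w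
    apply Subtype.ext
    by_cases hj : F.φ j ∈ Set.Ici (F.φ i)
    · have hp : p ∈ Set.Ici (F.φ i) := (Ic_iff F h).2 hj
      rw [if_pos hp] at h1 h2
      exact h1.symm.trans ((congrArg Subtype.val hzw).trans h2)
    · exact ((z : cell k (Set.Ici (F.φ i)) (F.φ j)).2 hj).trans ((w : cell k (Set.Ici (F.φ i)) (F.φ j)).2 hj).symm
  surj := by
    intro p j h y
    refine ⟨(⟨(y : cell k (Set.Ici (F.φ i)) p).1, fun hj =>
      (y : cell k (Set.Ici (F.φ i)) p).2 (fun hp => hj ((Ic_iff F h).1 hp))⟩ : cell k (Set.Ici (F.φ i)) (F.φ j)), ?_⟩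
    apply Subtype.ext
    refine (kS_map k (Set.ordConnected_Ici (a := F.φ i)) (homOfLE (F.le_of_eq h)) _).trans ?_
    show (if p ∈ Set.Ici (F.φ i) then (y : cell k (Set.Ici (F.φ i)) p).1 else 0) = (y : cell k (Set.Ici (F.φ i)) p).1
    by_cases hp : p ∈ Set.Ici (F.φ i)
    · rw [if_pos hp]
    · rw [if_neg hp]
      exact ((y : cell k (Set.Ici (F.φ i)) p).2 hp).symm
  zero := by
    intro p h z
    apply Subtype.ext
    apply (z : cell k (Set.Ici (F.φ i)) p).2
    intro hp
    have h1 := (F.gc i p).2 hp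
    obtain ⟨j, hj, _⟩ := h1 i rfl
    rw [h] at hj
    exact absurd hj (by simp)

theorem Cc_sum {I : Type} [Fintype I] (Z : I → Rep k P) (Y : Rep k P) (a : ∀ i, Z i ⟶ Y)
    (b : ∀ i, Y ⟶ Z i) (h3 : ∑ i, b i ≫ a i = 𝟙 Y) (hZ : ∀ i, Cc F (Z i)) : Cc F Y := by
  have hz : ∀ x (z : Y.obj x), z = ∑ i, ((a i).app x).hom (((b i).app x).hom z) := by
    intro x z
    have h2 := congrArg (fun f : Y ⟶ Y => (f.app x).hom z) h3
    have h4 : ((∑ i, b i ≫ a i : Y ⟶ Y).app x).hom z =
        ∑ i, ((a i).app x).hom (((b i).app x).hom z) := by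
      rw [NatTrans.app_sum, ModuleCat.hom_sum, LinearMap.sum_apply]
      rfl
    exact h2.symm.trans h4
  constructor
  · intro p j h z w hzw
    rw [hz _ z, hz _ w]
    apply Finset.sum_congr rfl
    intro i _
    congr 1
    apply (hZ i).inj h
    rw [← nat_ap (b i), ← nat_ap (b i), hzw]
  · intro p j h y
    choose x hx using fun i => (hZ i).surj h (((b i).app p).hom y)
    refine ⟨∑ i, ((a i).app (F.φ j)).hom (x i), ?_⟩
    rw [map_sum]
    conv_rhs => rw [hz _ y]
    apply Finset.sum_congr rfl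
    intro i _
    rw [← nat_ap (a i), hx]
  · intro p h z
    rw [hz _ z]
    apply Finset.sum_eq_zero
    intro i _
    have h5 := (hZ i).zero h (((b i).app p).hom z)
    rw [h5, map_zero]

theorem Cc_coker {Y1 Y0 M : Rep k P} (h1 : Cc F Y1) (h0 : Cc F Y0) (α : Y1 ⟶ Y0) (p : Y0 ⟶ M)
    (w : α ≫ p = 0) (hp : ∀ x, Function.Surjective (p.app x).hom)
    (ex : ∀ x (b : Y0.obj x), (p.app x).hom b = 0 → ∃ a, (α.app x).hom a = b) : Cc F M := by
  constructor
  · intro x j h z z' hzz
    obtain ⟨y, hy⟩ := hp _ (z - z')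
    have h2 : (p.app x).hom ((Y0.map (homOfLE (F.le_of_eq h))).hom y) = 0 := by
      rw [nat_ap p, hy, map_sub, hzz, sub_self]
    obtain ⟨a, ha⟩ := ex x _ h2
    obtain ⟨a', ha'⟩ := h1.surj h a
    have h3 : (Y0.map (homOfLE (F.le_of_eq h))).hom ((α.app _).hom a') =
        (Y0.map (homOfLE (F.le_of_eq h))).hom y := by
      rw [← nat_ap α, ha', ha]
    have h4 := h0.inj h h3
    have h5 : z - z' = 0 := by
      rw [← hy, ← h4]
      exact congrArg (fun f : Y1 ⟶ M => (f.app _).hom a') w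
    exact sub_eq_zero.1 h5
  · intro x j h z
    obtain ⟨y, hy⟩ := hp _ z
    obtain ⟨y', hy'⟩ := h0.surj h y
    refine ⟨(p.app _).hom y', ?_⟩
    rw [← nat_ap p, hy', hy]
  · intro x h z
    obtain ⟨y, hy⟩ := hp _ z
    rw [← hy, h0.zero h y, map_zero]

theorem PFD_kS (S : Set P) (hS : S.OrdConnected) : PFD (J := P) (kS k S hS) := by
  intro p
  show FiniteDimensional k (cell k S p)
  infer_instance

end

end Pool.Agent.X317.SR
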