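import Mathlib
import Pool.Agent.X317.SR.Tr

/-!
# The floor function on `T × Q`
-/

set_option autoImplicit false
set_option linter.all false

namespace Pool.Agent.X317.SR

open CategoryTheory CategoryTheory.Limits
open Classical ZeroObject

universe u

attribute [-instance] CategoryTheory.prod'

variable {T : Type u} [LinearOrder T] {Q : Type u} [PartialOrder Q] {r : ℕ}

/-- `t` lies in the `i`-th cell -/
def Cel (c : Fin r → T) (t : T) (i : Fin r) : Prop := c i ≤ t ∧ ∀ i', c i' ≤ t → i' ≤ i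

theorem Cel_unique {c : Fin r → T} {t : T} {i j : Fin r} (h : Cel c t i) (h' : Cel c t j) : i = j :=
  le_antisymm (h'.2 i h.1) (h.2 j h'.1)

/-- the floor function -/
noncomputable def fl (c : Fin r → T) (t : T) : Option (Fin r) :=
  if h : ∃ i, Cel c t i then some h.choose else none

theorem fl_eq {c : Fin r → T} {t : T} {i : Fin r} : fl c t = some i ↔ Cel c t i := by
  unfold fl
  constructor
  · intro h
    by_cases h1 : ∃ i, Cel c t i
    · rw [dif_pos h1] at h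
      rw [← Option.some.inj h]
      exact h1.choose_spec
    · rw [dif_neg h1] at h
      exact absurd h (by simp)
  · intro h
    have h1 : ∃ i, Cel c t i := ⟨i, h⟩
    rw [dif_pos h1, Cel_unique h1.choose_spec h]

theorem exists_cel {c : Fin r → T} {t : T} {i : Fin r} (h : c i ≤ t) : ∃ j, Cel c t j ∧ i ≤ j := by
  have hne : (Finset.univ.filter (fun j : Fin r => c j ≤ t)).Nonempty :=
    ⟨i, Finset.mem_filter.2 ⟨Finset.mem_univ i, h⟩⟩
  refine ⟨(Finset.univ.filter (fun j : Fin r => c j ≤ t)).max' hne, ⟨?_, ?_⟩, ?_⟩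
  · exact (Finset.mem_filter.1 (Finset.max'_mem _ hne)).2
  · intro i' hi'
    exact Finset.le_max' _ _ (Finset.mem_filter.2 ⟨Finset.mem_univ i', hi'⟩)
  · exact Finset.le_max' _ _ (Finset.mem_filter.2 ⟨Finset.mem_univ i, h⟩)

theorem Cel_self {c : Fin r → T} (hc : StrictMono c) (i : Fin r) : Cel c (c i) i :=
  ⟨le_rfl, fun i' h => (hc.le_iff_le).1 h⟩

/-- two-dimensional floor -/
noncomputable def FT (c : Fin r → T) (hc : StrictMono c) (Q : Type u) [PartialOrder Q] :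
    Flo (Fin r × Q) (T × Q) where
  φ j := (c j.1, j.2)
  ψ p := (fl c p.1).map (fun i => (i, p.2))
  gc := by
    rintro ⟨i, a⟩ ⟨t, b⟩
    constructor
    · intro h
      obtain ⟨⟨i', b'⟩, hj, hij⟩ := h _ rfl
      obtain ⟨l, hl, hl2⟩ := Option.map_eq_some_iff.1 hj
      have h1 := fl_eq.1 hl
      have h2 : l = i' := congrArg Prod.fst hl2
      have h3 : b = b' := congrArg Prod.snd hl2
      subst h2
      subst h3
      exact ⟨(hc.monotone hij.1).trans h1.1, hij.2⟩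
    · rintro ⟨h1, h2⟩ _ hi
      obtain ⟨j, hj, hij⟩ := exists_cel h1
      refine ⟨(j, b), ?_, ?_⟩
      · show (fl c t).map (fun i => (i, b)) = some (j, b)
        rw [fl_eq.2 hj]
        rfl
      · rw [← Option.some.inj hi]
        exact ⟨hij, h2⟩
  emb := by
    rintro ⟨i, a⟩
    show (fl c (c i)).map (fun i => (i, a)) = some (i, a)
    rw [fl_eq.2 (Cel_self hc i)]
    rfl

section
variable {c : Fin r → T} {hc : StrictMono c}

theorem ψ_eq {t : T} {a b : Q} {i : Fin r} :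
    (FT c hc Q).ψ (t, a) = some (i, b) ↔ Cel c t i ∧ a = b := by
  show (fl c t).map (fun i => (i, a)) = some (i, b) ↔ _
  constructor
  · intro h
    obtain ⟨l, hl, hl2⟩ := Option.map_eq_some_iff.1 h
    have h2 : l = i := congrArg Prod.fst hl2
    subst h2
    exact ⟨fl_eq.1 hl, congrArg Prod.snd hl2⟩
  · rintro ⟨h1, rfl⟩
    rw [fl_eq.2 h1]
    rfl

theorem ψ_none {p : T × Q} : (FT c hc Q).ψ p = none ↔ ∀ i, ¬ c i ≤ p.1 := by
  constructor
  · intro h i hi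
    obtain ⟨j, hj, _⟩ := exists_cel hi
    have h1 : (FT c hc Q).ψ (p.1, p.2) = some (j, p.2) := ψ_eq.2 ⟨hj, rfl⟩
    have h2 : (FT c hc Q).ψ (p.1, p.2) = none := h
    rw [h1] at h2
    exact absurd h2 (by simp)
  · intro h
    rcases hp : (FT c hc Q).ψ p with _ | ⟨i, b⟩
    · rfl
    · exact absurd (ψ_eq.1 hp).1.1 (h i)

/-- the floor of a convex set -/
def Sp (c : Fin r → T) (S : Set (T × Q)) : Set (Fin r × Q) :=
  {j | (∃ t0, Cel c t0 j.1 ∧ ∀ t, Cel c t j.1 → t0 ≤ t → (t, j.2) ∈ S) ∧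
    ∀ t a, (t, a) ∈ S → a ≤ j.2 → ∃ i, c i ≤ t}

theorem Cel_max {t t' : T} {i : Fin r} (h : Cel c t i) (h' : Cel c t' i) : Cel c (max t t') i := by
  rcases le_total t t' with h1 | h1
  · rw [max_eq_right h1]
    exact h'
  · rw [max_eq_left h1]
    exact h

theorem Cel_lt {t t' : T} {i i' : Fin r} (h : Cel c t i) (h' : Cel c t' i') (hlt : i < i') : t < t' := by
  by_contra hcon
  exact absurd (h.2 i' (h'.1.trans (not_lt.1 hcon))) (not_le.2 hlt)

/-- the top of a cell lies in `S` -/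
theorem Sp_top {S : Set (T × Q)} {i : Fin r} {a : Q} (h : (i, a) ∈ Sp c S) {t1 : T} (ht : Cel c t1 i) :
    ∃ t, t1 ≤ t ∧ Cel c t i ∧ ∀ t', Cel c t' i → t ≤ t' → (t', a) ∈ S := by
  obtain ⟨⟨t0, h0, h1⟩, _⟩ := h
  exact ⟨max t1 t0, le_max_left _ _, Cel_max ht h0, fun t' ht' hle =>
    h1 t' ht' ((le_max_right _ _).trans hle)⟩

/-- above an element of a lower or equal cell there is one in the given cell -/
theorem Cel_above (hc : StrictMono c) {t : T} {i i' : Fin r} (h : Cel c t i) (hii : i ≤ i') :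
    ∃ t', t ≤ t' ∧ Cel c t' i' := by
  rcases eq_or_lt_of_le hii with rfl | hlt
  · exact ⟨t, le_rfl, h⟩
  · exact ⟨c i', (Cel_lt h (Cel_self hc i') hlt).le, Cel_self hc i'⟩

include hc in
theorem Sp_conn {S : Set (T × Q)} (hS : S.OrdConnected) : (Sp c S).OrdConnected := by
  constructor
  rintro ⟨i, a⟩ hi ⟨i2, a2⟩ hi2 ⟨i1, a1⟩ ⟨h1, h2⟩
  have h1' : i ≤ i1 := h1.1
  have h2' : i1 ≤ i2 := h2.1
  refine ⟨?_, ?_⟩
  · obtain ⟨⟨t0, ht0, hS0⟩, _⟩ := hi
    obtain ⟨t1, ht01, ht1⟩ := Cel_above hc ht0 h1'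
    refine ⟨t1, ht1, ?_⟩
    intro t ht hle
    obtain ⟨s, hts, hs⟩ := Cel_above hc ht h2'
    obtain ⟨s', hss', hs', hS'⟩ := Sp_top hi2 hs
    exact hS.out (hS0 t0 ht0 le_rfl) (hS' s' hs' le_rfl)
      ⟨⟨ht01.trans hle, h1.2⟩, ⟨hts.trans hss', h2.2⟩⟩
  · intro t a' hta ha'
    exact hi2.2 t a' hta (ha'.trans h2.2)

theorem C1 {S : Set (T × Q)} (hS : S.OrdConnected) {p q : T × Q} (hp : p ∈ S) (hpq : p ≤ q)
    {j : Fin r × Q} (hq : (FT c hc Q).ψ q = some j) (hj : j ∈ Sp c S) : q ∈ S := by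
  obtain ⟨i, a⟩ := j
  obtain ⟨h1, h2⟩ := ψ_eq.1 (show (FT c hc Q).ψ (q.1, q.2) = some (i, a) from hq)
  obtain ⟨t, ht1, ht2, ht3⟩ := Sp_top hj h1
  exact hS.out hp (ht3 t ht2 le_rfl) ⟨hpq, ⟨ht1, le_of_eq h2⟩⟩

theorem C2 {S : Set (T × Q)} (hS : S.OrdConnected) {p q : T × Q} (hp : p ∈ S) (hpq : p ≤ q)
    {i j : Fin r × Q} (hpi : (FT c hc Q).ψ p = some i) (hq : (FT c hc Q).ψ q = some j)
    (hj : j ∈ Sp c S) : i ∈ Sp c S := by
  have hij := Ph_le (FT c hc Q) hpq hpi hq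
  obtain ⟨l, b⟩ := j
  obtain ⟨i, a⟩ := i
  obtain ⟨h1, h2⟩ := ψ_eq.1 (show (FT c hc Q).ψ (p.1, p.2) = some (i, a) from hpi)
  refine ⟨⟨p.1, h1, ?_⟩, ?_⟩
  · intro t ht hle
    obtain ⟨s, hts, hs⟩ := Cel_above hc ht hij.1
    obtain ⟨s', hss', hs', hS'⟩ := Sp_top hj hs
    exact hS.out hp (hS' s' hs' le_rfl) ⟨⟨hle, le_of_eq h2⟩, ⟨hts.trans hss', hij.2⟩⟩
  · intro t a' hta ha'
    exact hj.2 t a' hta (ha'.trans hij.2)

theorem bad_above {S : Set (T × Q)} {p q : T × Q} (hp : p ∈ S) (hpq : p ≤ q)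
    (hpn : (FT c hc Q).ψ p = none) {j : Fin r × Q} (hq : (FT c hc Q).ψ q = some j) : j ∉ Sp c S := by
  intro hj
  obtain ⟨i, a⟩ := j
  obtain ⟨h1, h2⟩ := ψ_eq.1 (show (FT c hc Q).ψ (q.1, q.2) = some (i, a) from hq)
  obtain ⟨l, hl⟩ := hj.2 p.1 p.2 hp (hpq.2.trans (le_of_eq h2))
  exact ψ_none.1 hpn l hl

variable {k : Type u} [Field k]

/-- the floor of a convex set, bundled -/
def SpC (c : Fin r → T) (hc : StrictMono c) (S : Cvx (T × Q)) : Cvx (Fin r × Q) :=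
  ⟨Sp c S.1, Sp_conn (hc := hc) S.2⟩

/-- the unit -/
noncomputable def uu (k : Type u) [Field k] (c : Fin r → T) (hc : StrictMono c) (S : Cvx (T × Q)) :
    kC k S ⟶ Ph (FT c hc Q) (kC k (SpC c hc S)) :=
  mkH S.1 S.2 (Ph (FT c hc Q) (kC k (SpC c hc S)))
    (fun p => if p ∈ S.1 then pe (FT c hc Q) (kC k (SpC c hc S)) (fun j => oneS k (Sp c S.1) j) p else 0)
    (fun p hp => if_neg hp)
    (fun p q f hp => by
      rw [if_pos hp]
      have hpq := leOfHom f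
      rcases hpi : (FT c hc Q).ψ p with _ | i
      · have h0 : pe (FT c hc Q) (kC k (SpC c hc S)) (fun j => oneS k (Sp c S.1) j) p = 0 :=
          none_zero _ _ hpi _
        rw [h0, map_zero]
        by_cases hq : q ∈ S.1
        · rw [if_pos hq]
          rcases hqj : (FT c hc Q).ψ q with _ | j
          · exact (none_zero _ _ hqj _).symm
          · apply val_inj (FT c hc Q) _ hqj
            refine (val_zero _ _ hqj).trans (Eq.trans ?_ (pe_val _ _ _ hqj).symm)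
            apply Subtype.ext
            exact (if_neg (bad_above hp hpq hpi hqj)).symm
        · rw [if_neg hq]
      · obtain ⟨j, hqj, hij⟩ := (FT c hc Q).mono hpq i hpi
        apply val_inj (FT c hc Q) _ hqj
        refine (val_map (FT c hc Q) _ f hpi hqj (homOfLE hij) _).trans ?_
        refine (congrArg _ (pe_val _ _ _ hpi)).trans ?_
        by_cases hq : q ∈ S.1
        · rw [if_pos hq]
          refine Eq.trans ?_ (pe_val _ _ _ hqj).symm
          apply Subtype.ext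
          refine (kS_map k (SpC c hc S).2 (homOfLE hij) (oneS k (Sp c S.1) i)).trans ?_
          show (if j ∈ Sp c S.1 then (if i ∈ Sp c S.1 then (1 : k) else 0) else 0) =
            (if j ∈ Sp c S.1 then 1 else 0)
          by_cases hj : j ∈ Sp c S.1
          · rw [if_pos hj, if_pos hj, if_pos (C2 S.2 hp hpq hpi hqj hj)]
          · rw [if_neg hj, if_neg hj]
        · rw [if_neg hq]
          refine Eq.trans ?_ (val_zero _ _ hqj).symm
          apply Subtype.ext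
          refine (kS_map k (SpC c hc S).2 (homOfLE hij) (oneS k (Sp c S.1) i)).trans ?_
          have hj : j ∉ Sp c S.1 := fun hj => hq (C1 S.2 hp hpq hqj hj)
          exact if_neg hj)

theorem uu_el (S : Cvx (T × Q)) (p : T × Q) :
    el (uu k c hc S) p =
      if p ∈ S.1 then pe (FT c hc Q) (kC k (SpC c hc S)) (fun j => oneS k (Sp c S.1) j) p else 0 :=
  mkH_el _ _ _ p

/-- elements over the same `j` -/
theorem el_top {S : Cvx (T × Q)} {M : Rep k (Fin r × Q)} (g : kC k S ⟶ Ph (FT c hc Q) M)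
    {p q : T × Q} (hp : p ∈ S.1) (hpq : p ≤ q) {i j : Fin r × Q}
    (hpi : (FT c hc Q).ψ p = some i) (hq : (FT c hc Q).ψ q = some j) (hij : i ≤ j) :
    (M.map (homOfLE hij)).hom (val (FT c hc Q) M hpi (el g p)) = val (FT c hc Q) M hq (el g q) := by
  refine (val_map (FT c hc Q) M (homOfLE hpq) hpi hq (homOfLE hij) (el g p)).symm.trans ?_
  exact congrArg _ (el_map g (homOfLE hpq) hp)

/-- there is an element of `S` over each point of the floor -/
theorem Sp_pt {S : Set (T × Q)} {j : Fin r × Q} (hj : j ∈ Sp c S) :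
    ∃ p : T × Q, p ∈ S ∧ (FT c hc Q).ψ p = some j ∧
      ∀ t, Cel c t j.1 → p.1 ≤ t → (t, j.2) ∈ S := by
  obtain ⟨i, a⟩ := j
  obtain ⟨⟨t0, h0, h1⟩, _⟩ := hj
  exact ⟨(t0, a), h1 t0 h0 le_rfl, ψ_eq.2 ⟨h0, rfl⟩, h1⟩

/-- vanishing -/
theorem el_vanish {S : Cvx (T × Q)} {M : Rep k (Fin r × Q)} (g : kC k S ⟶ Ph (FT c hc Q) M)
    {p : T × Q} (hp : p ∈ S.1) {i j : Fin r × Q} (hpi : (FT c hc Q).ψ p = some i) (hij : i ≤ j)
    (hj : j ∉ Sp c S.1) : (M.map (homOfLE hij)).hom (val (FT c hc Q) M hpi (el g p)) = 0 := by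
  obtain ⟨l, b⟩ := j
  obtain ⟨i, a⟩ := i
  obtain ⟨h1, h2⟩ := ψ_eq.1 (show (FT c hc Q).ψ (p.1, p.2) = some (i, a) from hpi)
  have hle := hij
  obtain ⟨s, hps, hs⟩ := Cel_above hc h1 hle.1
  have hpb : p.2 ≤ b := (le_of_eq h2).trans hle.2
  by_cases hA : ∃ t0, Cel c t0 l ∧ ∀ t, Cel c t l → t0 ≤ t → (t, b) ∈ S.1
  · have hB : ∃ t a', (t, a') ∈ S.1 ∧ a' ≤ b ∧ ∀ i, ¬ c i ≤ t := by
      by_contra hcon
      apply hj
      refine ⟨hA, ?_⟩
      intro t a' h3 h4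
      by_contra h5
      exact hcon ⟨t, a', h3, h4, fun i hi => h5 ⟨i, hi⟩⟩
    obtain ⟨t0, ht0, hA⟩ := hA
    obtain ⟨t, a', h3, h4, h5⟩ := hB
    let q : T × Q := (max s t0, b)
    have hq : (FT c hc Q).ψ q = some (l, b) := ψ_eq.2 ⟨Cel_max hs ht0, rfl⟩
    have hpq : p ≤ q := ⟨hps.trans (le_max_left _ _), hpb⟩
    refine (el_top g hp hpq hpi hq hij).trans ?_
    have h6 : (FT c hc Q).ψ (t, a') = none := ψ_none.2 h5
    have hts : t ≤ s := by
      by_contra hcon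
      exact h5 l (hs.1.trans (not_le.1 hcon).le)
    have h7 : ((t, a') : T × Q) ≤ q := ⟨hts.trans (le_max_left _ _), h4⟩
    have h8 : el g q = 0 := by
      rw [← el_map g (homOfLE h7) h3, none_zero _ _ h6 (el g (t, a')), map_zero]
    rw [h8, val_zero]
  · have hA' : ∃ t, Cel c t l ∧ s ≤ t ∧ (t, b) ∉ S.1 := by
      by_contra hcon
      apply hA
      refine ⟨s, hs, ?_⟩
      intro t ht hst
      by_contra h5
      exact hcon ⟨t, ht, hst, h5⟩
    obtain ⟨t, ht, hst, htS⟩ := hA'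
    let q : T × Q := (t, b)
    have hq : (FT c hc Q).ψ q = some (l, b) := ψ_eq.2 ⟨ht, rfl⟩
    have hpq : p ≤ q := ⟨hps.trans hst, hpb⟩
    refine (el_top g hp hpq hpi hq hij).trans ?_
    rw [el_zero g (show q ∉ S.1 from htS), val_zero]

/-- uniqueness of the value over `j` -/
theorem el_uniq {S : Cvx (T × Q)} {M : Rep k (Fin r × Q)} (g : kC k S ⟶ Ph (FT c hc Q) M)
    {p q : T × Q} (hp : p ∈ S.1) {i j : Fin r × Q} (hpi : (FT c hc Q).ψ p = some i) (hij : i ≤ j)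
    (hq : (FT c hc Q).ψ q = some j) (hqS : ∀ t, Cel c t j.1 → q.1 ≤ t → (t, j.2) ∈ S.1) :
    (M.map (homOfLE hij)).hom (val (FT c hc Q) M hpi (el g p)) = val (FT c hc Q) M hq (el g q) := by
  obtain ⟨l, b⟩ := j
  obtain ⟨i, a⟩ := i
  obtain ⟨h1, h2⟩ := ψ_eq.1 (show (FT c hc Q).ψ (p.1, p.2) = some (i, a) from hpi)
  obtain ⟨h3, h4⟩ := ψ_eq.1 (show (FT c hc Q).ψ (q.1, q.2) = some (l, b) from hq)
  have hle := hij
  obtain ⟨s, hps, hs⟩ := Cel_above hc h1 hle.1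
  have hpb : p.2 ≤ b := (le_of_eq h2).trans hle.2
  let w : T × Q := (max s q.1, b)
  have hw : (FT c hc Q).ψ w = some (l, b) := ψ_eq.2 ⟨Cel_max hs h3, rfl⟩
  have hpw : p ≤ w := ⟨hps.trans (le_max_left _ _), hpb⟩
  have hqw : q ≤ w := ⟨le_max_right _ _, le_of_eq h4⟩
  have hqS' : q ∈ S.1 := by
    have h5 := hqS q.1 h3 le_rfl
    have h6 : (q.1, b) = q := by rw [← h4]
    rw [← h6]
    exact h5
  refine (el_top g hp hpw hpi hw hij).trans ?_
  have h7 := el_top g hqS' hqw hq hw (le_refl (l, b))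
  rw [← h7]
  exact map_id' M _ _

/-- the factorization -/
theorem factor {S : Cvx (T × Q)} {M : Rep k (Fin r × Q)} (g : kC k S ⟶ Ph (FT c hc Q) M) :
    ∃ g' : kC k (SpC c hc S) ⟶ M, uu k c hc S ≫ Phm (FT c hc Q) g' = g := by
  choose pt hpt1 hpt2 hpt3 using fun (j : Fin r × Q) (hj : j ∈ Sp c S.1) => Sp_pt (hc := hc) hj
  let n : ∀ j, M.obj j := fun j =>
    if hj : j ∈ Sp c S.1 then val (FT c hc Q) M (hpt2 j hj) (el g (pt j hj)) else 0
  have hn : ∀ j (hj : j ∈ Sp c S.1), n j = val (FT c hc Q) M (hpt2 j hj) (el g (pt j hj)) :=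
    fun j hj => dif_pos hj
  have hn0 : ∀ j, j ∉ Sp c S.1 → n j = 0 := fun j hj => dif_neg hj
  let g' : kC k (SpC c hc S) ⟶ M := mkH (SpC c hc S).1 (SpC c hc S).2 M n hn0 (by
    intro i j f hi
    rw [hn i hi]
    by_cases hj : j ∈ Sp c S.1
    · rw [hn j hj]
      exact el_uniq g (hpt1 i hi) (hpt2 i hi) (leOfHom f) (hpt2 j hj) (hpt3 j hj)
    · rw [hn0 j hj]
      exact el_vanish g (hpt1 i hi) (hpt2 i hi) (leOfHom f) hj)
  have hg' : ∀ j, el g' j = n j := fun j => mkH_el _ _ _ j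
  refine ⟨g', ?_⟩
  apply el_ext
  intro p hp
  rw [el_comp]
  have h1 : el (uu k c hc S) p = pe (FT c hc Q) (kC k (SpC c hc S)) (fun j => oneS k (Sp c S.1) j) p :=
    (uu_el S p).trans (if_pos hp)
  rw [h1]
  rcases hpi : (FT c hc Q).ψ p with _ | j
  · exact (none_zero _ _ hpi _).trans (none_zero _ _ hpi _).symm
  · apply val_inj (FT c hc Q) _ hpi
    refine (val_app (FT c hc Q) g' hpi _).trans ?_
    refine (congrArg _ (pe_val _ _ _ hpi)).trans ?_
    refine (hg' j).trans ?_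
    by_cases hj : j ∈ Sp c S.1
    · rw [hn j hj]
      rw [← el_uniq g hp hpi (le_refl j) (hpt2 j hj) (hpt3 j hj)]
      exact map_id' M _ _
    · rw [hn0 j hj]
      have h2 := el_vanish g hp hpi (le_refl j) hj
      exact h2.symm.trans (map_id' M _ _)

end

end Pool.Agent.X317.SR
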