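import Mathlib
import Pool.Agent.X317.SR.FP
import Pool.Agent.X317.SR.TQ

/-!
# Spread resolutions over `T × Q`
-/

set_option autoImplicit false
set_option linter.all false

namespace Pool.Agent.X317.SR

open CategoryTheory CategoryTheory.Limits
open Classical ZeroObject

universe u

attribute [-instance] CategoryTheory.prod'

section
variable {k : Type u} [Field k] {P : Type u} [PartialOrder P]

theorem spreadSum_of {Y : Rep k P} (h : SumE IsSp Y) : IsSpreadSum Y := by
  obtain ⟨n, S, hS, he⟩ := iso_of_SumE h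
  exact ⟨n, fun i => (S i).1, hS, he⟩

theorem IsSpreadSum_iso {M N : Rep k P} (e : M ≅ N) (h : IsSpreadSum M) : IsSpreadSum N := by
  obtain ⟨n, S, hS, ⟨e'⟩⟩ := h
  exact ⟨n, S, hS, ⟨e.symm ≪≫ e'⟩⟩

theorem HasSpreadRes_iso (n : ℕ) {M N : Rep k P} (e : M ≅ N) (h : HasSpreadRes n M) :
    HasSpreadRes n N := by
  cases n with
  | zero => exact ⟨IsFP_iso e h.1, IsSpreadSum_iso e h.2⟩
  | succ n =>
    obtain ⟨K, X, i, p, w, hex, hK, hX, hM, hS, hl, hr⟩ := h
    have w' : i ≫ (p ≫ e.hom) = 0 := by rw [reassoc_of% w, zero_comp]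
    refine ⟨K, X, i, p ≫ e.hom, w', ?_, hK, hX, IsFP_iso e hM, hS, ?_, hr⟩
    · refine ShortComplex.shortExact_of_iso (ShortComplex.isoMk (Iso.refl K) (Iso.refl X) e ?_ ?_) hex
      · show 𝟙 K ≫ i = i ≫ 𝟙 X
        rw [Category.id_comp, Category.comp_id]
      · show 𝟙 X ≫ p ≫ e.hom = p ≫ e.hom
        rw [Category.id_comp]
    · intro S hS g
      obtain ⟨h, hh⟩ := hl S hS (g ≫ e.inv)
      refine ⟨h, ?_⟩
      rw [reassoc_of% hh, e.inv_hom_id, Category.comp_id]

theorem fd_sum {I : Type} [Fintype I] (Z : I → Rep k P) (Y : Rep k P) (a : ∀ i, Z i ⟶ Y)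
    (b : ∀ i, Y ⟶ Z i) (h3 : ∑ i, b i ≫ a i = 𝟙 Y) (p : P)
    (hZ : ∀ i, FiniteDimensional k ((Z i).obj p)) : FiniteDimensional k (Y.obj p) := by
  haveI := hZ
  have hz : ∀ (z : Y.obj p), z = ∑ i, ((a i).app p).hom (((b i).app p).hom z) := by
    intro z
    have h2 := congrArg (fun f : Y ⟶ Y => (f.app p).hom z) h3
    have h4 : ((∑ i, b i ≫ a i : Y ⟶ Y).app p).hom z =
        ∑ i, ((a i).app p).hom (((b i).app p).hom z) := by
      rw [NatTrans.app_sum, ModuleCat.hom_sum, LinearMap.sum_apply]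
      rfl
    exact h2.symm.trans h4
  let L : Y.obj p →ₗ[k] (∀ i, (Z i).obj p) :=
    { toFun := fun x i => ((b i).app p).hom x
      map_add' := fun x y => by
        funext i
        exact map_add _ _ _
      map_smul' := fun c x => by
        funext i
        exact map_smul _ _ _ }
  apply FiniteDimensional.of_injective L
  intro x y h
  rw [hz x, hz y]
  apply Finset.sum_congr rfl
  intro i _
  exact congrArg _ (congrFun h i)

theorem Cc_bip {J : Type u} [PartialOrder J] (F : Flo J P) {I : Type} [Fintype I] (Z : I → Rep k P)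
    (hZ : ∀ i, Cc F (Z i)) : Cc F (⨁ Z) :=
  Cc_sum F Z (⨁ Z) (fun i => biproduct.ι Z i) (fun i => biproduct.π Z i) biproduct.total hZ

theorem fd_bip {I : Type} [Fintype I] (Z : I → Rep k P) (p : P)
    (hZ : ∀ i, FiniteDimensional k ((Z i).obj p)) : FiniteDimensional k ((⨁ Z : Rep k P).obj p) :=
  fd_sum Z (⨁ Z) (fun i => biproduct.ι Z i) (fun i => biproduct.π Z i) biproduct.total p hZ

theorem fd_quot {Y M : Rep k P} (f : Y ⟶ M) (p : P) (hY : FiniteDimensional k (Y.obj p))
    (hf : Function.Surjective (f.app p).hom) : FiniteDimensional k (M.obj p) :=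
  Module.Finite.of_surjective (f.app p).hom hf

end

variable {k : Type u} [Field k] {T : Type u} [LinearOrder T] {Q : Type u} [PartialOrder Q] [Finite Q]

theorem Res_spread {r : ℕ} (c : Fin r → T) (hc : StrictMono c) (n : ℕ) :
    ∀ N : Rep k (Fin r × Q), PFD N → Res1 n N → HasSpreadRes n (Ph (FT c hc Q) N) := by
  induction n with
  | zero =>
    intro N hN h
    refine ⟨Ph_FP (FT c hc Q) N hN, spreadSum_of ?_⟩
    refine ⟨Empty, inferInstance, fun i => i.elim, fun i => i.elim, fun i => i.elim, fun i => i.elim,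
      fun i => i.elim, fun i => i.elim, ?_⟩
    apply rep_ext
    intro p x
    rcases hp : (FT c hc Q).ψ p with _ | j
    · exact (none_zero _ N hp _).trans (none_zero _ N hp _).symm
    · apply val_inj _ N hp
      exact (h j _).trans (h j _).symm
  | succ n ih =>
    intro N hN h
    obtain ⟨Y, K, i, p, hY, hK, hses, hsp, hr⟩ := h
    have hs := Ph_SES (FT c hc Q) hses
    refine ⟨Ph (FT c hc Q) K, Ph (FT c hc Q) Y, Phm _ i, Phm _ p, SES_w hs, SES_exact hs _,
      Ph_FP _ K hK, Ph_FP _ Y (PFD_SumC hY), Ph_FP _ N hN,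
      spreadSum_of (Ph_SumE _ (D := IsSp) (D' := IsSp) (fun S hS => pre_spread _ S hS) (SumC_SumE hY)),
      ?_, ih K hK hr⟩
    intro S hS g
    obtain ⟨g', hg'⟩ := factor (c := c) (hc := hc) (S := ⟨S, hS.convex⟩) g
    obtain ⟨g'', hg''⟩ := hsp (SpC c hc ⟨S, hS.convex⟩) g'
    refine ⟨uu k c hc ⟨S, hS.convex⟩ ≫ Phm _ g'', ?_⟩
    rw [Category.assoc, ← Phm_comp, hg'']
    exact hg'

/-- every finitely presented representation comes from a finite grid -/
theorem FP_Ph (M : Rep k (T × Q)) (hM : IsFP M) : ∃ (r : ℕ) (c : Fin r → T) (hc : StrictMono c)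
    (N : Rep k (Fin r × Q)), PFD N ∧ Nonempty (Ph (FT c hc Q) N ≅ M) := by
  obtain ⟨m, n, a, b, α, p, w, hp, hex⟩ := FP_form hM
  let C : Finset T := (Finset.univ.image fun i => (a i).1) ∪ (Finset.univ.image fun i => (b i).1)
  let c : Fin C.card → T := C.orderEmbOfFin rfl
  have hc : StrictMono c := (C.orderEmbOfFin rfl).strictMono
  let F := FT c hc Q
  have hr : ∀ t ∈ C, ∃ l, c l = t := by
    intro t ht
    have h1 : t ∈ Set.range (C.orderEmbOfFin rfl) := by
      rw [Finset.range_orderEmbOfFin]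
      exact ht
    exact h1
  have hCI : ∀ q : T × Q, q.1 ∈ C → Cc F (kS k (Set.Ici q) Set.ordConnected_Ici) := by
    intro q hq
    obtain ⟨l, hl⟩ := hr q.1 hq
    have h1 : q = F.φ (l, q.2) := by
      apply Prod.ext
      · exact hl.symm
      · rfl
    rw [h1]
    exact Cc_Ic F (l, q.2)
  have hcov : ∀ {n : ℕ} (a : Fin n → T × Q), (∀ i, (a i).1 ∈ C) →
      Cc F (⨁ fun i => kS k (Set.Ici (a i)) Set.ordConnected_Ici) := by
    intro n a ha
    exact Cc_bip F (fun i => kS k (Set.Ici (a i)) Set.ordConnected_Ici) (fun i => hCI _ (ha i))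
  have h1 := hcov a (fun i => Finset.mem_union_left _ (Finset.mem_image_of_mem _ (Finset.mem_univ i)))
  have h0 := hcov b (fun i => Finset.mem_union_right _ (Finset.mem_image_of_mem _ (Finset.mem_univ i)))
  have hCM : Cc F M := Cc_coker F h1 h0 α p w hp hex
  haveI := Cc_iso F M hCM
  refine ⟨C.card, c, hc, Rs F M, ?_, ⟨asIso (cu F M)⟩⟩
  intro j
  exact fd_quot p (F.φ j) (fd_bip (fun i => kS k (Set.Ici (b i)) Set.ordConnected_Ici) (F.φ j)
    (fun i => PFD_kS _ _ _)) (hp (F.φ j))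

/-- Q1 -/
theorem Q1 (M : Rep k (T × Q)) (hM : IsFP M) : ∃ n, HasSpreadRes n M := by
  obtain ⟨r, c, hc, N, hN, ⟨e⟩⟩ := FP_Ph M hM
  obtain ⟨n, hn⟩ := exists_Res N hN
  exact ⟨n, HasSpreadRes_iso n e (Res_spread c hc n N hN hn)⟩

end Pool.Agent.X317.SR
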